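import Pool.Agent.helper132_quad.R3

/-! Local data at all primes. -/

namespace Pool.Agent.helper132_n

open Finset Pool.Agent.helper132_poly Pool.Agent.helper132_quad

lemma two_pow_root (τ i : ℕ) (hi : 2 ≤ i) : ∃ t : ℤ, (1 + (2 : ℤ) ^ i) ^ (2 ^ τ) = 1 + 2 ^ (i + τ) * (1 + 2 * t) := by
  induction τ with
  | zero => exact ⟨0, by simp⟩
  | succ τ ih =>
    obtain ⟨t, ht⟩ := ih
    obtain ⟨j, hj⟩ : ∃ j, i + τ = j + 2 := ⟨i + τ - 2, by omega⟩
    rw [pow_succ, pow_mul, ht, hj]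
    have e : i + (τ + 1) = j + 3 := by omega
    rw [e]
    refine ⟨t + 2 ^ j * (1 + 2 * t) ^ 2, ?_⟩
    have e2 : (2 : ℤ) ^ (j + 2) = 4 * 2 ^ j := by rw [pow_add]; ring
    have e3 : (2 : ℤ) ^ (j + 3) = 8 * 2 ^ j := by rw [pow_add]; ring
    rw [e2, e3]
    ring

lemma lift_two (k τ k' : ℕ) (hk : k = 2 ^ τ * k') (hk' : ¬ 2 ∣ k') (c : ℤ) (hc : (2 : ℤ) ^ (τ + 2) ∣ 1 - c) (w : ℕ) :
    ∃ z : ℤ, ¬ (2 : ℤ) ∣ z ∧ (2 : ℤ) ^ (τ + 2 + w) ∣ z ^ k - c := by
  induction w with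
  | zero =>
    refine ⟨1, by norm_num, ?_⟩
    rw [add_zero, one_pow]; exact hc
  | succ w ih =>
    obtain ⟨z, hz1, e, he⟩ := ih
    obtain ⟨v, hv⟩ : ∃ v, v = τ + 2 + w := ⟨_, rfl⟩
    have hv1 : τ + 2 + (w + 1) = v + 1 := by omega
    rw [← hv] at he
    rw [hv1]
    rcases Int.even_or_odd e with ⟨e1, he1⟩ | ⟨e1, he1⟩
    · refine ⟨z, hz1, e1, ?_⟩
      rw [he, he1, pow_succ]; ring
    · obtain ⟨t, ht⟩ := two_pow_root τ (w + 2) (by omega)
      have hwv : w + 2 + τ = v := by omega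
      rw [hwv] at ht
      obtain ⟨B, hB⟩ : ∃ B : ℤ, B = 2 ^ v * (1 + 2 * t) := ⟨_, rfl⟩
      rw [← hB] at ht
      obtain ⟨s, hs⟩ := one_add_pow_dvd B k'
      have hzodd : Odd z := by
        rcases Int.even_or_odd z with h | h
        · exact absurd (even_iff_two_dvd.1 h) hz1
        · exact h
      obtain ⟨z1, hz1'⟩ := hzodd.pow (n := k)
      have hk'odd : Odd k' := by
        rcases Nat.even_or_odd k' with h | h
        · exact absurd (even_iff_two_dvd.1 h) hk'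
        · exact h
      obtain ⟨k1, hk1⟩ := hk'odd
      refine ⟨z * (1 + 2 ^ (w + 2)), ?_, ?_⟩
      · intro h
        rcases (Int.prime_two).dvd_or_dvd h with h1 | h1
        · exact hz1 h1
        · have h2 : (2 : ℤ) ∣ 2 ^ (w + 2) := dvd_pow_self _ (by omega)
          have h3 : (2 : ℤ) ∣ 1 := (Int.dvd_add_left h2).1 h1
          norm_num at h3
      · have e2 : (z * (1 + 2 ^ (w + 2))) ^ k = z ^ k * (1 + B) ^ k' := by
          rw [mul_pow]
          congr 1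
          rw [← ht, ← pow_mul, ← hk]
        have e3 : (1 + B) ^ k' = 1 + k' * B + B ^ 2 * s := by linarith
        obtain ⟨v', hv'⟩ : ∃ v', v = v' + 1 := ⟨v - 1, by omega⟩
        have e4 : (2 : ℤ) ^ v = 2 ^ v' * 2 := by rw [hv', pow_succ]
        have e5 : z ^ k * (1 + k' * B + B ^ 2 * s) - c =
            2 ^ v * (e + z ^ k * (k' * (1 + 2 * t) + 2 ^ v * ((1 + 2 * t) ^ 2 * s))) := by
          have : c = z ^ k - 2 ^ v * e := by linarith
          rw [this, hB]; ring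
        rw [e2, e3, e5, pow_succ]
        refine mul_dvd_mul_left _ ?_
        have hkc : (k' : ℤ) = 2 * k1 + 1 := by exact_mod_cast hk1
        rw [he1, hz1', hkc, e4]
        refine ⟨e1 + z1 * ((2 * (k1 : ℤ) + 1) * (1 + 2 * t) + 2 ^ v' * 2 * ((1 + 2 * t) ^ 2 * s)) +
          (k1 + (2 * k1 + 1) * t) + 2 ^ v' * ((1 + 2 * t) ^ 2 * s) + 1, ?_⟩
        ring

/-- local data at a prime. -/
theorem local_data (k : ℕ) (hk : 3 ≤ k) (p : ℕ) (hp : p.Prime) : ∃ γ : ℕ, LSR k (k ^ 2 + k) (p ^ γ) ∧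
    ∀ (v : ℕ) (c : ℤ), (p : ℤ) ^ γ ∣ 1 - c → ∃ z : ℤ, (p : ℤ) ^ v ∣ z ^ k - c := by
  obtain ⟨τ, k', hk', hkk⟩ := Nat.exists_eq_pow_mul_and_not_dvd (n := k) (by omega) p hp.ne_one
  have hk'0 : 1 ≤ k' := by
    rcases Nat.eq_zero_or_pos k' with h | h
    · rw [h, mul_zero] at hkk; omega
    · exact h
  have hpτ : p ^ τ ≤ k := by
    rw [hkk]; exact Nat.le_mul_of_pos_right _ hk'0
  have h3k : 3 * k ≤ k ^ 2 := by rw [sq]; exact Nat.mul_le_mul_right _ hk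
  by_cases hp2 : p = 2
  · subst hp2
    refine ⟨τ + 2, ?_, ?_⟩
    · refine LSR_ones k _ _ (by omega) (Nat.one_le_pow _ _ (by norm_num)) ?_
      have : 2 ^ (τ + 2) = 4 * 2 ^ τ := by rw [pow_add]; ring
      omega
    · intro v c hc
      obtain ⟨z, _, hz⟩ := lift_two k τ k' hkk hk' c hc v
      exact ⟨z, dvd_trans (pow_dvd_pow _ (by omega)) hz⟩
  · refine ⟨τ + 1, ?_, ?_⟩
    · rcases Nat.eq_zero_or_pos τ with h0 | h0
      · rw [h0, zero_add, pow_one]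
        have : Fact p.Prime := ⟨hp⟩
        exact (sum_powers_prime p k (by omega)).mono (by omega) (by omega)
      · refine LSR_ones k _ _ (by omega) (Nat.one_le_pow _ _ hp.pos) ?_
        have h2 : p ≤ k := (Nat.le_self_pow (by omega) p).trans hpτ
        have h3 : p ^ (τ + 1) ≤ k * k := by rw [pow_succ]; exact Nat.mul_le_mul hpτ h2
        have h4 : k * k = k ^ 2 := (sq k).symm
        omega
    · intro v c hc
      obtain ⟨z, _, hz⟩ := lift_root p k τ k' hp hp2 hkk hk' c hc v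
      exact ⟨z, dvd_trans (pow_dvd_pow _ (by omega)) hz⟩

end Pool.Agent.helper132_n
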