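import Pool.Agent.helper132_n.A1

/-! Local solution counts. -/

namespace Pool.Agent.helper132_n

open Finset Pool.Agent.helper132_poly Pool.Agent.helper132_quad

/-- number of solutions modulo `m`. -/
def Mc (k s m : ℕ) (n : ℤ) : ℕ :=
  ((Fintype.piFinset (fun _ : Fin s => range m)).filter (fun y => (m : ℤ) ∣ n - ∑ i, ((y i : ℕ) : ℤ) ^ k)).card

lemma pow_congr (m : ℤ) (x y : ℤ) (h : m ∣ x - y) (k : ℕ) : m ∣ x ^ k - y ^ k :=
  dvd_trans h (sub_dvd_pow_sub_pow x y k)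

lemma sum_congr_dvd {ι : Type} (I : Finset ι) (m : ℤ) (x y : ι → ℤ) (k : ℕ) (h : ∀ i ∈ I, m ∣ x i - y i) :
    m ∣ ∑ i ∈ I, x i ^ k - ∑ i ∈ I, y i ^ k := by
  rw [← Finset.sum_sub_distrib]
  exact Finset.dvd_sum fun i hi => pow_congr m _ _ (h i hi) k

lemma Mc_pp (k T p γ v : ℕ) (hp : p.Prime) (hγv : γ ≤ v) (hL : LSR k T (p ^ γ))
    (hlift : ∀ (v : ℕ) (c : ℤ), (p : ℤ) ^ γ ∣ 1 - c → ∃ z : ℤ, (p : ℤ) ^ v ∣ z ^ k - c) (n : ℤ) :
    (p ^ (v - γ)) ^ T ≤ Mc k (T + 1) (p ^ v) n := by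
  classical
  obtain ⟨ρ, hρ⟩ := hL (n - 1)
  have hpγ : 0 < p ^ γ := pow_pos hp.pos _
  have hpv : 0 < p ^ v := pow_pos hp.pos _
  obtain ⟨tl, htl⟩ : ∃ tl : (Fin T → ℕ) → Fin T → ℕ, tl = fun (e : Fin T → ℕ) (i : Fin T) => ρ (i : ℕ) % p ^ γ + p ^ γ * e i := ⟨_, rfl⟩
  have hc : ∀ e, (p : ℤ) ^ γ ∣ 1 - (n - ∑ i, ((tl e i : ℕ) : ℤ) ^ k) := by
    intro e
    have h1 : (p : ℤ) ^ γ ∣ ∑ i : Fin T, ((tl e i : ℕ) : ℤ) ^ k - ∑ i : Fin T, ((ρ i : ℕ) : ℤ) ^ k := by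
      refine sum_congr_dvd _ _ _ _ k fun i _ => ?_
      rw [htl]
      beta_reduce
      have h2 := Nat.mod_add_div (ρ i) (p ^ γ)
      have h3 : ((ρ i : ℕ) : ℤ) = ((ρ i % p ^ γ : ℕ) : ℤ) + (p : ℤ) ^ γ * ((ρ i / p ^ γ : ℕ) : ℤ) := by
        exact_mod_cast h2.symm
      refine ⟨(e i : ℤ) - ((ρ i / p ^ γ : ℕ) : ℤ), ?_⟩
      rw [h3]; push_cast; ring
    rw [Finset.sum_range] at hρ
    have h4 : 1 - (n - ∑ i, ((tl e i : ℕ) : ℤ) ^ k) =
        (∑ i : Fin T, ((tl e i : ℕ) : ℤ) ^ k - ∑ i : Fin T, ((ρ i : ℕ) : ℤ) ^ k) -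
          (n - 1 - ∑ i : Fin T, ((ρ i : ℕ) : ℤ) ^ k) := by ring
    rw [h4]
    refine dvd_sub h1 ?_
    exact_mod_cast hρ
  choose z hz using fun e => hlift v _ (hc e)
  obtain ⟨hd, hhd⟩ : ∃ hd : (Fin T → ℕ) → ℕ, hd = fun e => (z e % ((p ^ v : ℕ) : ℤ)).toNat := ⟨_, rfl⟩
  have hhdv : ∀ e, ((hd e : ℕ) : ℤ) = z e % ((p ^ v : ℕ) : ℤ) := by
    intro e
    rw [hhd]
    exact Int.toNat_of_nonneg (Int.emod_nonneg _ (by exact_mod_cast hpv.ne'))
  have hcard : ((Fintype.piFinset (fun _ : Fin T => range (p ^ (v - γ))))).card = (p ^ (v - γ)) ^ T := by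
    rw [Fintype.card_piFinset]; simp
  rw [← hcard]
  unfold Mc
  refine Finset.card_le_card_of_injOn (fun e => Fin.cons (hd e) (tl e)) ?_ ?_
  · intro e he
    rw [Finset.mem_coe, Fintype.mem_piFinset] at he
    rw [Finset.mem_coe, Finset.mem_filter, Fintype.mem_piFinset]
    constructor
    · intro i
      refine Fin.cases ?_ (fun i => ?_) i
      · beta_reduce
        rw [Fin.cons_zero, Finset.mem_range]
        have h1 : ((hd e : ℕ) : ℤ) < ((p ^ v : ℕ) : ℤ) := by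
          rw [hhdv]; exact Int.emod_lt_of_pos _ (by exact_mod_cast hpv)
        exact_mod_cast h1
      · beta_reduce
        rw [Fin.cons_succ, Finset.mem_range, htl]
        beta_reduce
        have h1 := Finset.mem_range.1 (he i)
        have h2 := Nat.mod_lt (ρ i) hpγ
        have h3 : p ^ v = p ^ γ * p ^ (v - γ) := by rw [← pow_add]; congr 1; omega
        rw [h3]
        calc ρ i % p ^ γ + p ^ γ * e i < p ^ γ + p ^ γ * e i := by omega
          _ = p ^ γ * (e i + 1) := by ring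
          _ ≤ _ := Nat.mul_le_mul_left _ h1
    · rw [Fin.sum_univ_succ]
      simp only [Fin.cons_zero, Fin.cons_succ]
      have h1 := hz e
      have h2 : ((p ^ v : ℕ) : ℤ) ∣ ((hd e : ℕ) : ℤ) ^ k - z e ^ k := by
        refine pow_congr _ _ _ ?_ k
        rw [hhdv]
        have := Int.dvd_self_sub_emod (x := z e) (m := ((p ^ v : ℕ) : ℤ))
        have h3 := (dvd_neg).2 this
        rwa [neg_sub] at h3
      have h4 : n - (((hd e : ℕ) : ℤ) ^ k + ∑ i, ((tl e i : ℕ) : ℤ) ^ k) =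
          -(z e ^ k - (n - ∑ i, ((tl e i : ℕ) : ℤ) ^ k)) - (((hd e : ℕ) : ℤ) ^ k - z e ^ k) := by ring
      rw [h4]
      refine dvd_sub ?_ h2
      rw [dvd_neg]
      exact_mod_cast h1
  · intro e he e' he' hee
    beta_reduce at hee
    have h1 := (Fin.cons_injective2 hee).2
    funext i
    have h2 := congrFun h1 i
    rw [htl] at h2
    beta_reduce at h2
    have h3 : p ^ γ * e i = p ^ γ * e' i := by omega
    exact Nat.eq_of_mul_eq_mul_left hpγ h3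

lemma Mc_pos_of_dvd (k s m m' : ℕ) (hm : 0 < m) (hmm : m ∣ m') (n : ℤ) (h : 0 < Mc k s m' n) : 0 < Mc k s m n := by
  classical
  unfold Mc at h ⊢
  rw [Finset.card_pos] at h ⊢
  obtain ⟨y, hy⟩ := h
  rw [Finset.mem_filter] at hy
  refine ⟨fun i => y i % m, ?_⟩
  rw [Finset.mem_filter, Fintype.mem_piFinset]
  refine ⟨fun i => Finset.mem_range.2 (Nat.mod_lt _ hm), ?_⟩
  have h1 : (m : ℤ) ∣ n - ∑ i, ((y i : ℕ) : ℤ) ^ k := dvd_trans (by exact_mod_cast hmm) hy.2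
  have h2 : (m : ℤ) ∣ ∑ i, ((y i : ℕ) : ℤ) ^ k - ∑ i, (((y i % m : ℕ)) : ℤ) ^ k := by
    refine sum_congr_dvd _ _ _ _ k fun i _ => ?_
    push_cast
    exact Int.dvd_self_sub_emod
  have h3 := dvd_add h1 h2
  rwa [sub_add_sub_cancel] at h3

/-- multiplicativity (lower bound). -/
lemma Mc_mul (k s a b : ℕ) (ha : 0 < a) (hb : 0 < b) (hab : Nat.Coprime a b) (n : ℤ) :
    Mc k s a n * Mc k s b n ≤ Mc k s (a * b) n := by
  classical
  unfold Mc
  rw [← Finset.card_product]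
  refine Finset.card_le_card_of_injOn (fun w => fun i => (Nat.chineseRemainder hab (w.1 i) (w.2 i) : ℕ)) ?_ ?_
  · intro w hw
    rw [Finset.mem_coe, Finset.mem_product, Finset.mem_filter, Finset.mem_filter] at hw
    rw [Finset.mem_coe, Finset.mem_filter, Fintype.mem_piFinset]
    constructor
    · intro i
      rw [Finset.mem_range]
      exact Nat.chineseRemainder_lt_mul hab _ _ ha.ne' hb.ne'
    · have h1 : ∀ (m : ℕ) (x y : ℕ), x ≡ y [MOD m] → (m : ℤ) ∣ (y : ℤ) - x := by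
        intro m x y h
        exact (Nat.modEq_iff_dvd).1 h
      have h2 : (a : ℤ) ∣ n - ∑ i, (((Nat.chineseRemainder hab (w.1 i) (w.2 i) : ℕ)) : ℤ) ^ k := by
        have h3 : (a : ℤ) ∣ ∑ i, ((w.1 i : ℕ) : ℤ) ^ k - ∑ i, (((Nat.chineseRemainder hab (w.1 i) (w.2 i) : ℕ)) : ℤ) ^ k :=
          sum_congr_dvd _ _ _ _ k fun i _ => h1 a _ _ (Nat.chineseRemainder hab (w.1 i) (w.2 i)).2.1
        have h4 := dvd_add hw.1.2 h3
        rwa [sub_add_sub_cancel] at h4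
      have h2' : (b : ℤ) ∣ n - ∑ i, (((Nat.chineseRemainder hab (w.1 i) (w.2 i) : ℕ)) : ℤ) ^ k := by
        have h3 : (b : ℤ) ∣ ∑ i, ((w.2 i : ℕ) : ℤ) ^ k - ∑ i, (((Nat.chineseRemainder hab (w.1 i) (w.2 i) : ℕ)) : ℤ) ^ k :=
          sum_congr_dvd _ _ _ _ k fun i _ => h1 b _ _ (Nat.chineseRemainder hab (w.1 i) (w.2 i)).2.2
        have h4 := dvd_add hw.2.2 h3
        rwa [sub_add_sub_cancel] at h4
      push_cast
      exact IsCoprime.mul_dvd (Nat.isCoprime_iff_coprime.2 hab) h2 h2'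
  · intro w hw w' hw' hww
    rw [Finset.mem_coe, Finset.mem_product, Finset.mem_filter, Finset.mem_filter, Fintype.mem_piFinset,
      Fintype.mem_piFinset] at hw hw'
    beta_reduce at hww
    have h1 : w.1 = w'.1 := by
      funext i
      have h2 := congrFun hww i
      beta_reduce at h2
      have h3 := (Nat.chineseRemainder hab (w.1 i) (w.2 i)).2.1
      have h4 := (Nat.chineseRemainder hab (w'.1 i) (w'.2 i)).2.1
      rw [h2] at h3
      have h5 : w.1 i ≡ w'.1 i [MOD a] := h3.symm.trans h4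
      exact Nat.ModEq.eq_of_lt_of_lt h5 (Finset.mem_range.1 (hw.1.1 i)) (Finset.mem_range.1 (hw'.1.1 i))
    have h1' : w.2 = w'.2 := by
      funext i
      have h2 := congrFun hww i
      beta_reduce at h2
      have h3 := (Nat.chineseRemainder hab (w.1 i) (w.2 i)).2.2
      have h4 := (Nat.chineseRemainder hab (w'.1 i) (w'.2 i)).2.2
      rw [h2] at h3
      have h5 : w.2 i ≡ w'.2 i [MOD b] := h3.symm.trans h4
      exact Nat.ModEq.eq_of_lt_of_lt h5 (Finset.mem_range.1 (hw.2.1 i)) (Finset.mem_range.1 (hw'.2.1 i))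
    exact Prod.ext h1 h1'

/-- smooth moduli. -/
lemma Mc_smooth (k s : ℕ) (G : ℕ → ℕ) (hG : ∀ p, p.Prime → ∀ v : ℕ, ∀ n : ℤ,
    (p ^ v) ^ (s - 1) ≤ G p * Mc k s (p ^ v) n) (n : ℤ) : ∀ W : ℕ, 1 ≤ W →
    W ^ (s - 1) ≤ (∏ p ∈ W.primeFactors, G p) * Mc k s W n := by
  intro W
  induction W using Nat.recOnPosPrimePosCoprime with
  | prime_pow p v hp hv =>
    intro _
    rw [Nat.primeFactors_prime_pow (by omega) hp, Finset.prod_singleton]
    exact hG p hp v n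
  | zero => intro h; omega
  | one =>
    intro _
    rw [Nat.primeFactors_one, Finset.prod_empty, one_mul, one_pow]
    unfold Mc
    rw [Nat.one_le_iff_ne_zero, ← Nat.pos_iff_ne_zero, Finset.card_pos]
    refine ⟨fun _ => 0, ?_⟩
    rw [Finset.mem_filter, Fintype.mem_piFinset]
    refine ⟨fun i => by simp, ?_⟩
    rw [Nat.cast_one]
    exact one_dvd _
  | coprime a b ha hb hab iha ihb =>
    intro _
    have h1 := iha (by omega)
    have h2 := ihb (by omega)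
    rw [Nat.Coprime.primeFactors_mul hab, Finset.prod_union hab.disjoint_primeFactors, mul_pow]
    calc a ^ (s - 1) * b ^ (s - 1) ≤ ((∏ p ∈ a.primeFactors, G p) * Mc k s a n) * ((∏ p ∈ b.primeFactors, G p) * Mc k s b n) :=
          Nat.mul_le_mul h1 h2
      _ = ((∏ p ∈ a.primeFactors, G p) * (∏ p ∈ b.primeFactors, G p)) * (Mc k s a n * Mc k s b n) := by ring
      _ ≤ _ := Nat.mul_le_mul_left _ (Mc_mul k s a b (by omega) (by omega) hab n)

lemma Mc_G (k s : ℕ) (hk : 3 ≤ k) (hs : k ^ 2 + k + 1 ≤ s) : ∃ G : ℕ → ℕ, (∀ p, 1 ≤ G p) ∧ ∀ p, p.Prime → ∀ v : ℕ,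
    ∀ n : ℤ, (p ^ v) ^ (s - 1) ≤ G p * Mc k s (p ^ v) n := by
  classical
  have h1 : ∀ p : ℕ, ∃ g : ℕ, 1 ≤ g ∧ (p.Prime → ∀ v : ℕ, ∀ n : ℤ, (p ^ v) ^ (s - 1) ≤ g * Mc k s (p ^ v) n) := by
    intro p
    by_cases hp : p.Prime
    · obtain ⟨γ, hL, hlift⟩ := local_data k hk p hp
      have hL' : LSR k (s - 1) (p ^ γ) := hL.mono (by omega) (by omega)
      have hs1 : s - 1 + 1 = s := by omega
      refine ⟨(p ^ γ) ^ (s - 1), Nat.one_le_pow _ _ (pow_pos hp.pos _), ?_⟩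
      intro _ v n
      rcases le_or_gt γ v with h | h
      · have h2 := Mc_pp k (s - 1) p γ v hp h hL' hlift n
        rw [hs1] at h2
        calc (p ^ v) ^ (s - 1) = (p ^ γ) ^ (s - 1) * (p ^ (v - γ)) ^ (s - 1) := by
              rw [← mul_pow, ← pow_add]; congr 2; omega
          _ ≤ _ := Nat.mul_le_mul_left _ h2
      · have h2 := Mc_pp k (s - 1) p γ γ hp le_rfl hL' hlift n
        rw [hs1, Nat.sub_self, pow_zero, one_pow] at h2
        have h3 := Mc_pos_of_dvd k s (p ^ v) (p ^ γ) (pow_pos hp.pos _) (pow_dvd_pow _ h.le) n (by omega)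
        calc (p ^ v) ^ (s - 1) ≤ (p ^ γ) ^ (s - 1) * 1 := by
              rw [mul_one]
              exact Nat.pow_le_pow_left (Nat.pow_le_pow_right hp.pos h.le) _
          _ ≤ _ := Nat.mul_le_mul_left _ h3
    · exact ⟨1, le_rfl, fun h => absurd h hp⟩
  choose G hG1 hG2 using h1
  exact ⟨G, hG1, hG2⟩

end Pool.Agent.helper132_n
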