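import Pool.Agent.helper132_n.A2
import Pool.Agent.helper132_h.H5
import Pool.Agent.helper132_dc.D1

/-! Local solution counts for rough moduli. -/

namespace Pool.Agent.helper132_n

open Finset Polynomial Pool.Agent.helper132_sph Pool.Agent.helper132_poly Pool.Agent.helper132_quad Pool.Agent.helper132_h

/-- complete power sum. -/
noncomputable def SW (k W a : ℕ) : ℂ := ∑ y ∈ range W, ec ((a : ℝ) / W * ((y : ℕ) : ℝ) ^ k)

lemma SW_norm (k W a : ℕ) : ‖SW k W a‖ ≤ W := by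
  unfold SW
  refine (norm_sum_le _ _).trans ?_
  simp [norm_ec]

lemma Mc_eq (k s W : ℕ) (hW : 1 ≤ W) (n : ℤ) :
    (W : ℂ) * Mc k s W n = ∑ a ∈ range W, ec (-((a : ℝ) / W * n)) * SW k W a ^ s := by
  classical
  have h1 : ∀ a ∈ range W, ec (-((a : ℝ) / W * n)) * SW k W a ^ s =
      ∑ y ∈ Fintype.piFinset (fun _ : Fin s => range W), ec ((a : ℝ) / W * (((∑ j, ((y j : ℕ) : ℤ) ^ k - n : ℤ)) : ℝ)) := by
    intro a _
    have h9 := Finset.prod_univ_sum (fun _ : Fin s => range W) (fun _ (m : ℕ) => ec ((a : ℝ) / W * (m : ℝ) ^ k))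
    rw [Finset.prod_const, Finset.card_univ, Fintype.card_fin] at h9
    unfold SW
    rw [h9, Finset.mul_sum]
    refine Finset.sum_congr rfl fun y _ => ?_
    rw [sum_ec_prod, ← ec_add]
    congr 1
    push_cast
    rw [mul_sub, Finset.mul_sum]
    ring
  rw [Finset.sum_congr rfl h1, Finset.sum_comm]
  have h2 : ∀ y ∈ Fintype.piFinset (fun _ : Fin s => range W),
      ∑ a ∈ range W, ec ((a : ℝ) / W * (((∑ j, ((y j : ℕ) : ℤ) ^ k - n : ℤ)) : ℝ)) =
        if (W : ℤ) ∣ n - ∑ i, ((y i : ℕ) : ℤ) ^ k then (W : ℂ) else 0 := by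
    intro y _
    have h3 := geom_mod W hW (∑ j, ((y j : ℕ) : ℤ) ^ k - n)
    have h4 : ((W : ℤ) ∣ ∑ j, ((y j : ℕ) : ℤ) ^ k - n) ↔ ((W : ℤ) ∣ n - ∑ i, ((y i : ℕ) : ℤ) ^ k) := by
      rw [← dvd_neg, neg_sub]
    simp only [h4] at h3
    rw [← h3]
  rw [Finset.sum_congr rfl h2, ← Finset.sum_filter, Finset.sum_const, nsmul_eq_mul]
  unfold Mc
  ring

lemma SW_reduce (k q g a' : ℕ) (hq : 1 ≤ q) (hg : 1 ≤ g) :
    ‖SW k (g * q) (g * a')‖ / ((g * q : ℕ) : ℝ) = ‖cs q (C (a' : ℤ) * X ^ k)‖ / q := by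
  have hqR : (0 : ℝ) < q := by exact_mod_cast hq
  have hgR : (0 : ℝ) < g := by exact_mod_cast hg
  have h1 : SW k (g * q) (g * a') = g * cs q (C (a' : ℤ) * X ^ k) := by
    unfold SW cs
    rw [mul_comm g q, Pool.Agent.helper132_dc.sum_digits, Finset.mul_sum]
    refine Finset.sum_congr rfl fun e _ => ?_
    have h2 : ∀ e' ∈ range g, ec (((g * a' : ℕ) : ℝ) / ((q * g : ℕ) : ℝ) * (((e + q * e' : ℕ)) : ℝ) ^ k) =
        ec ((((C (a' : ℤ) * X ^ k : ℤ[X]).eval ((e : ℕ) : ℤ) : ℤ) : ℝ) / q) := by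
      intro e' _
      have e1 : ((g * a' : ℕ) : ℝ) / ((q * g : ℕ) : ℝ) * (((e + q * e' : ℕ)) : ℝ) ^ k =
          (((a' : ℤ) * (((e + q * e' : ℕ)) : ℤ) ^ k : ℤ) : ℝ) / q := by
        push_cast
        field_simp
      rw [e1]
      simp only [Polynomial.eval_mul, Polynomial.eval_C, Polynomial.eval_pow, Polynomial.eval_X]
      refine ec_div_congr q hq _ _ ?_
      rw [← mul_sub]
      refine Dvd.dvd.mul_left (pow_congr _ _ _ ?_ k) _
      push_cast
      exact ⟨(e' : ℤ), by ring⟩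
    rw [Finset.sum_congr rfl h2, Finset.sum_const, Finset.card_range, nsmul_eq_mul]
  rw [h1, norm_mul, Complex.norm_natCast]
  push_cast
  field_simp

lemma SW_bound (k : ℕ) (hk : 3 ≤ k) (s : ℕ) (hs : k ^ 2 + k + 1 ≤ s) : ∃ K : ℝ, 1 ≤ K ∧ ∀ (W a : ℕ), 1 ≤ W → 1 ≤ a →
    (‖SW k W a‖ / W) ^ s ≤ K * (((W / Nat.gcd a W : ℕ)) : ℝ) ^ (-(7 / 3) : ℝ) := by
  obtain ⟨K, hK1, hK⟩ := cs_bound k (by omega) (1 / 12) (by norm_num)
  have hkR : (3 : ℝ) ≤ k := by exact_mod_cast hk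
  have hsR : (k : ℝ) ^ 2 + k + 1 ≤ s := by exact_mod_cast hs
  have hs0 : (0 : ℝ) < s := by nlinarith
  have h2k : (0 : ℝ) < 2 * (k : ℝ) - 1 := by linarith
  refine ⟨K ^ ((s : ℝ) / (2 * k - 1)), Real.one_le_rpow hK1 (by positivity), ?_⟩
  intro W a hW ha
  obtain ⟨g, hg⟩ : ∃ g, g = Nat.gcd a W := ⟨_, rfl⟩
  have hg1 : 1 ≤ g := by rw [hg]; exact Nat.gcd_pos_of_pos_left _ ha
  obtain ⟨q, hq⟩ : g ∣ W := by rw [hg]; exact Nat.gcd_dvd_right _ _
  obtain ⟨a', ha'⟩ : g ∣ a := by rw [hg]; exact Nat.gcd_dvd_left _ _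
  have hq1 : 1 ≤ q := by
    rcases Nat.eq_zero_or_pos q with h | h
    · rw [h, mul_zero] at hq; omega
    · exact h
  have hcop : Nat.gcd a' q = 1 := by
    have h1 : g * Nat.gcd a' q = g := by
      rw [← Nat.gcd_mul_left, ← ha', ← hq, ← hg]
    exact Nat.eq_of_mul_eq_mul_left hg1 (by rw [h1, mul_one])
  have hWq : W / g = q := by rw [hq]; exact Nat.mul_div_cancel_left q hg1
  rw [← hg, hWq]
  have hqR : (1 : ℝ) ≤ q := by exact_mod_cast hq1
  have hq0 : (0 : ℝ) < q := by linarith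
  have h1 := SW_reduce k q g a' hq1 hg1
  rw [← hq, ← ha'] at h1
  rw [h1]
  have h2 := hK k (by omega) q hq1 (C (a' : ℤ) * X ^ k) (Polynomial.natDegree_C_mul_X_pow_le _ _)
  rw [Polynomial.coeff_C_mul_X_pow, if_pos rfl] at h2
  have h3 : Int.gcd (a' : ℤ) (q : ℤ) = 1 := by rw [Int.gcd_natCast_natCast]; exact hcop
  rw [h3, Nat.cast_one, one_mul] at h2
  obtain ⟨u, hu⟩ : ∃ u : ℝ, u = ‖cs q (C (a' : ℤ) * X ^ k)‖ / q := ⟨_, rfl⟩
  have hu0 : 0 ≤ u := by rw [hu]; positivity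
  rw [← hu] at h2 ⊢
  have h4 : u ^ (2 * k - 1) ≤ K * (q : ℝ) ^ (-(11 / 12) : ℝ) := by
    rw [Real.rpow_neg hq0.le, ← div_eq_mul_inv, le_div_iff₀ (by positivity)]
    have e : (1 : ℝ) - 1 / 12 = 11 / 12 := by norm_num
    rw [e] at h2
    exact h2
  calc u ^ s = (u ^ (2 * k - 1)) ^ ((s : ℝ) / (2 * k - 1)) := by
        rw [← Real.rpow_natCast u (2 * k - 1), ← Real.rpow_mul hu0, ← Real.rpow_natCast]
        congr 1
        rw [Nat.cast_sub (by omega)]
        push_cast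
        field_simp
    _ ≤ (K * (q : ℝ) ^ (-(11 / 12) : ℝ)) ^ ((s : ℝ) / (2 * k - 1)) :=
        Real.rpow_le_rpow (by positivity) h4 (by positivity)
    _ = K ^ ((s : ℝ) / (2 * k - 1)) * (q : ℝ) ^ (-(11 / 12) * ((s : ℝ) / (2 * k - 1))) := by
        rw [Real.mul_rpow (by linarith) (by positivity), ← Real.rpow_mul hq0.le]
    _ ≤ _ := by
        refine mul_le_mul_of_nonneg_left (Real.rpow_le_rpow_of_exponent_le hqR ?_) (by positivity)
        have h5 : 7 / 3 ≤ 11 / 12 * ((s : ℝ) / (2 * k - 1)) := by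
          rw [← mul_div_assoc, le_div_iff₀ h2k]
          nlinarith
        linarith

lemma tail_small (ε : ℝ) (hε : 0 < ε) : ∃ p1 : ℕ, ∀ N : ℕ, ∑ q ∈ Ioc p1 N, (q : ℝ) * (q : ℝ) ^ (-(7 / 3) : ℝ) ≤ ε := by
  have hsum : Summable (fun q : ℕ => (q : ℝ) * (q : ℝ) ^ (-(7 / 3) : ℝ)) := by
    have h1 : (fun q : ℕ => (q : ℝ) * (q : ℝ) ^ (-(7 / 3) : ℝ)) = fun q : ℕ => (q : ℝ) ^ (-(4 / 3) : ℝ) := by
      funext q
      rcases Nat.eq_zero_or_pos q with h | h
      · subst h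
        rw [Nat.cast_zero, zero_mul, Real.zero_rpow (by norm_num)]
      · have hq : (0 : ℝ) < q := by exact_mod_cast h
        nth_rewrite 1 [← Real.rpow_one (q : ℝ)]
        rw [← Real.rpow_add hq]
        congr 1
        norm_num
    rw [h1]
    exact Real.summable_nat_rpow.2 (by norm_num)
  have h2 := hsum.tendsto_sum_tsum_nat
  have h3 : ∀ᶠ n in Filter.atTop, (∑' q : ℕ, (q : ℝ) * (q : ℝ) ^ (-(7 / 3) : ℝ)) - ε <
      ∑ q ∈ range n, (q : ℝ) * (q : ℝ) ^ (-(7 / 3) : ℝ) :=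
    h2.eventually (lt_mem_nhds (by linarith))
  obtain ⟨n, hn⟩ := h3.exists
  refine ⟨n, fun N => ?_⟩
  have h4 : ∑ q ∈ range n, (q : ℝ) * (q : ℝ) ^ (-(7 / 3) : ℝ) + ∑ q ∈ Ioc n N, (q : ℝ) * (q : ℝ) ^ (-(7 / 3) : ℝ) ≤
      ∑' q : ℕ, (q : ℝ) * (q : ℝ) ^ (-(7 / 3) : ℝ) := by
    rw [← Finset.sum_union (by
      rw [Finset.disjoint_left]
      intro a ha hb
      rw [Finset.mem_range] at ha
      rw [Finset.mem_Ioc] at hb
      omega)]
    exact hsum.sum_le_tsum _ (fun q _ => by positivity)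
  linarith

/-- solutions for rough moduli. -/
lemma Mc_rough (k : ℕ) (hk : 3 ≤ k) (s : ℕ) (hs : k ^ 2 + k + 1 ≤ s) : ∃ p1 : ℕ, ∀ (W : ℕ), 1 ≤ W →
    (∀ q, q ∣ W → q ≠ 1 → p1 < q) → ∀ n : ℤ, (W : ℝ) ^ (s - 1) ≤ 2 * Mc k s W n := by
  classical
  obtain ⟨K, hK1, hK⟩ := SW_bound k hk s hs
  obtain ⟨p1, hp1⟩ := tail_small (1 / (2 * K)) (by positivity)
  refine ⟨p1, ?_⟩
  intro W hW hrough n
  have hWR : (0 : ℝ) < W := by exact_mod_cast hW
  have hmain := Mc_eq k s W hW n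
  obtain ⟨W', hW'⟩ : ∃ W', W = W' + 1 := ⟨W - 1, by omega⟩
  have hsplit : ∑ a ∈ range W, ec (-((a : ℝ) / W * n)) * SW k W a ^ s =
      (W : ℂ) ^ s + ∑ a ∈ (range W).erase 0, ec (-((a : ℝ) / W * n)) * SW k W a ^ s := by
    rw [← Finset.add_sum_erase (range W) _ (Finset.mem_range.2 (by omega : 0 < W))]
    congr 1
    have h1 : SW k W 0 = W := by
      unfold SW
      simp [ec_zero]
    rw [h1]
    simp [ec_zero]
  have hbound : ‖∑ a ∈ (range W).erase 0, ec (-((a : ℝ) / W * n)) * SW k W a ^ s‖ ≤ (W : ℝ) ^ s / 2 := by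
    refine (norm_sum_le _ _).trans ?_
    have h1 : ∀ a ∈ (range W).erase 0, ‖ec (-((a : ℝ) / W * n)) * SW k W a ^ s‖ ≤
        (W : ℝ) ^ s * (K * (((W / Nat.gcd a W : ℕ)) : ℝ) ^ (-(7 / 3) : ℝ)) := by
      intro a ha
      rw [Finset.mem_erase] at ha
      rw [norm_mul, norm_ec, one_mul, norm_pow]
      have h2 := hK W a hW (by omega)
      rw [div_pow, div_le_iff₀ (by positivity)] at h2
      linarith
    refine (Finset.sum_le_sum h1).trans ?_
    rw [← Finset.mul_sum, ← Finset.mul_sum]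
    have h2 : ∑ a ∈ (range W).erase 0, (((W / Nat.gcd a W : ℕ)) : ℝ) ^ (-(7 / 3) : ℝ) ≤
        ∑ q ∈ Ioc p1 W, (q : ℝ) * (q : ℝ) ^ (-(7 / 3) : ℝ) := by
      have hfib : ∀ a ∈ (range W).erase 0, W / Nat.gcd a W ∈ Ioc p1 W := by
        intro a ha
        rw [Finset.mem_erase, Finset.mem_range] at ha
        rw [Finset.mem_Ioc]
        refine ⟨hrough _ (Nat.div_dvd_of_dvd (Nat.gcd_dvd_right _ _)) ?_, Nat.div_le_self _ _⟩
        intro h1
        have h3 : Nat.gcd a W = W := by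
          have h4 := Nat.div_mul_cancel (Nat.gcd_dvd_right a W)
          rw [h1, one_mul] at h4
          exact h4
        have h5 : W ∣ a := by rw [← h3]; exact Nat.gcd_dvd_left _ _
        have := Nat.le_of_dvd (by omega) h5
        omega
      rw [← Finset.sum_fiberwise_of_maps_to hfib]
      refine Finset.sum_le_sum fun q hq => ?_
      have h3 : ∀ a ∈ ((range W).erase 0).filter (fun a => W / Nat.gcd a W = q),
          (((W / Nat.gcd a W : ℕ)) : ℝ) ^ (-(7 / 3) : ℝ) = (q : ℝ) ^ (-(7 / 3) : ℝ) := by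
        intro a ha
        rw [(Finset.mem_filter.1 ha).2]
      rw [Finset.sum_congr rfl h3, Finset.sum_const, nsmul_eq_mul]
      refine mul_le_mul_of_nonneg_right ?_ (by positivity)
      have h4 : ((range W).erase 0).filter (fun a => W / Nat.gcd a W = q) ⊆ (range q).image (fun a' => a' * (W / q)) := by
        intro a ha
        rw [Finset.mem_filter, Finset.mem_erase, Finset.mem_range] at ha
        obtain ⟨⟨ha0, haW⟩, haq⟩ := ha
        obtain ⟨g, hg⟩ : ∃ g, g = Nat.gcd a W := ⟨_, rfl⟩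
        have hg1 : 1 ≤ g := by rw [hg]; exact Nat.gcd_pos_of_pos_left _ (by omega)
        have h5 : q * g = W := by rw [← haq, hg]; exact Nat.div_mul_cancel (Nat.gcd_dvd_right _ _)
        have hq1 : 1 ≤ q := by
          rcases Nat.eq_zero_or_pos q with h | h
          · rw [h, zero_mul] at h5; omega
          · exact h
        have h6 : W / q = g := by rw [← h5]; exact Nat.mul_div_cancel_left g hq1
        obtain ⟨a', ha'⟩ : g ∣ a := by rw [hg]; exact Nat.gcd_dvd_left _ _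
        rw [Finset.mem_image]
        refine ⟨a', ?_, by rw [h6, ha']; ring⟩
        rw [Finset.mem_range]
        have h7 : g * a' < g * q := by rw [← ha', mul_comm g q, h5]; exact haW
        exact Nat.lt_of_mul_lt_mul_left h7
      have h5 := Finset.card_le_card h4
      have h6 : ((range q).image (fun a' => a' * (W / q))).card ≤ q := by
        refine Finset.card_image_le.trans ?_
        rw [Finset.card_range]
      exact_mod_cast h5.trans h6
    have h3 := h2.trans (hp1 W)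
    calc (W : ℝ) ^ s * (K * ∑ a ∈ (range W).erase 0, (((W / Nat.gcd a W : ℕ)) : ℝ) ^ (-(7 / 3) : ℝ))
        ≤ (W : ℝ) ^ s * (K * (1 / (2 * K))) := by gcongr
      _ = (W : ℝ) ^ s / 2 := by field_simp
  rw [hsplit] at hmain
  have h1 : ((W : ℝ) ^ s - W * Mc k s W n) ≤ (W : ℝ) ^ s / 2 := by
    have h2 : ‖(W : ℂ) * Mc k s W n - (W : ℂ) ^ s‖ ≤ (W : ℝ) ^ s / 2 := by
      rw [hmain, add_sub_cancel_left]
      exact hbound
    have h3 : ‖(W : ℂ) * Mc k s W n - (W : ℂ) ^ s‖ = |(W : ℝ) * Mc k s W n - (W : ℝ) ^ s| := by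
      rw [← Real.norm_eq_abs, ← Complex.norm_real]
      push_cast
      rfl
    rw [h3, abs_sub_comm] at h2
    exact (le_abs_self _).trans h2
  have hs1 : s = (s - 1) + 1 := by omega
  have h2 : (W : ℝ) ^ s = (W : ℝ) ^ (s - 1) * W := by
    conv_lhs => rw [hs1]
    rw [pow_succ]
  rw [h2] at h1
  have h3 : (W : ℝ) ^ (s - 1) * W ≤ 2 * Mc k s W n * W := by linarith
  exact le_of_mul_le_mul_right h3 hWR

end Pool.Agent.helper132_n
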