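import Pool.Agent.helper132_n.A3

/-! Uniform lower bound for the number of local solutions. -/

namespace Pool.Agent.helper132_n

open Finset Pool.Agent.helper132_sph Pool.Agent.helper132_poly Pool.Agent.helper132_quad Pool.Agent.helper132_h

lemma smooth_rough (p1 : ℕ) : ∀ W : ℕ, 1 ≤ W → ∃ W1 W2 : ℕ, W = W1 * W2 ∧ 1 ≤ W1 ∧ 1 ≤ W2 ∧ Nat.Coprime W1 W2 ∧
    (∀ p ∈ W1.primeFactors, p ≤ p1) ∧ (∀ q, q ∣ W2 → q ≠ 1 → p1 < q) := by
  intro W
  induction W using Nat.recOnPosPrimePosCoprime with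
  | prime_pow p v hp hv =>
    intro _
    have hpv : 1 ≤ p ^ v := Nat.one_le_pow _ _ hp.pos
    rcases le_or_gt p p1 with h | h
    · refine ⟨p ^ v, 1, by ring, hpv, le_rfl, Nat.coprime_one_right _, ?_, ?_⟩
      · intro r hr
        rw [Nat.primeFactors_prime_pow (by omega) hp, Finset.mem_singleton] at hr
        omega
      · intro q hq hq1
        exact absurd (Nat.dvd_one.1 hq) hq1
    · refine ⟨1, p ^ v, by ring, le_rfl, hpv, Nat.coprime_one_left _, ?_, ?_⟩
      · intro r hr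
        simp at hr
      · intro q hq hq1
        obtain ⟨i, _, hi⟩ := (Nat.dvd_prime_pow hp).1 hq
        have hi1 : 1 ≤ i := by
          rcases Nat.eq_zero_or_pos i with h0 | h0
          · rw [h0, pow_zero] at hi; exact absurd hi hq1
          · exact h0
        rw [hi]
        exact lt_of_lt_of_le h (Nat.le_self_pow (by omega) _)
  | zero => intro h; omega
  | one =>
    intro _
    refine ⟨1, 1, by ring, le_rfl, le_rfl, Nat.coprime_one_left _, ?_, ?_⟩
    · intro r hr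
      simp at hr
    · intro q hq hq1
      exact absurd (Nat.dvd_one.1 hq) hq1
  | coprime a b ha hb hab iha ihb =>
    intro _
    obtain ⟨a1, a2, ha12, ha1, ha2, hacop, haS, haR⟩ := iha (by omega)
    obtain ⟨b1, b2, hb12, hb1, hb2, hbcop, hbS, hbR⟩ := ihb (by omega)
    rw [ha12, hb12] at hab
    have h1 : Nat.Coprime a1 b2 := Nat.Coprime.coprime_dvd_left (Dvd.intro _ rfl)
      (Nat.Coprime.coprime_dvd_right (Dvd.intro_left _ rfl) hab)
    have h2 : Nat.Coprime b1 a2 := Nat.Coprime.symm (Nat.Coprime.coprime_dvd_left (Dvd.intro_left _ rfl)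
      (Nat.Coprime.coprime_dvd_right (Dvd.intro _ rfl) hab))
    refine ⟨a1 * b1, a2 * b2, ?_, Nat.mul_pos ha1 hb1, Nat.mul_pos ha2 hb2, ?_, ?_, ?_⟩
    · rw [ha12, hb12]; ring
    · exact Nat.Coprime.mul_left (Nat.Coprime.mul_right hacop h1) (Nat.Coprime.mul_right h2 hbcop)
    · intro p hp
      rw [Nat.primeFactors_mul (by omega) (by omega), Finset.mem_union] at hp
      rcases hp with h | h
      · exact haS p h
      · exact hbS p h
    · intro q hq hq1
      obtain ⟨r, hr, hrq⟩ := Nat.exists_prime_and_dvd hq1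
      have hq0 : 0 < q := Nat.pos_of_dvd_of_pos hq (Nat.mul_pos ha2 hb2)
      have h3 : r ≤ q := Nat.le_of_dvd hq0 hrq
      rcases (hr.dvd_mul).1 (dvd_trans hrq hq) with h | h
      · exact lt_of_lt_of_le (haR r h hr.ne_one) h3
      · exact lt_of_lt_of_le (hbR r h hr.ne_one) h3

/-- **uniform lower bound for local densities.** -/
theorem local_main (k : ℕ) (hk : 3 ≤ k) (s : ℕ) (hs : k ^ 2 + k + 1 ≤ s) : ∃ c : ℝ, 0 < c ∧ ∀ (W : ℕ), 1 ≤ W →
    ∀ n : ℤ, c * (W : ℝ) ^ (s - 1) ≤ Mc k s W n := by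
  obtain ⟨p1, hp1⟩ := Mc_rough k hk s hs
  obtain ⟨G, hG1, hG2⟩ := Mc_G k s hk hs
  obtain ⟨P, hP⟩ : ∃ P, P = ∏ p ∈ range (p1 + 1), G p := ⟨_, rfl⟩
  have hP1 : 1 ≤ P := by
    rw [hP]; exact Nat.one_le_iff_ne_zero.2 (Finset.prod_ne_zero_iff.2 fun p _ => by have := hG1 p; omega)
  have hPR : (0 : ℝ) < P := by exact_mod_cast hP1
  refine ⟨1 / (2 * P), by positivity, ?_⟩
  intro W hW n
  obtain ⟨W1, W2, hW12, hW1, hW2, hcop, hS, hR⟩ := smooth_rough p1 W hW
  have h1 := Mc_smooth k s G hG2 n W1 hW1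
  have h2 : ∏ p ∈ W1.primeFactors, G p ≤ P := by
    rw [hP]
    refine Finset.prod_le_prod_of_subset_of_one_le' ?_ ?_
    · intro p hp
      rw [Finset.mem_range]
      have := hS p hp
      omega
    · intro p _ _; exact hG1 p
  have h3 : W1 ^ (s - 1) ≤ P * Mc k s W1 n := h1.trans (Nat.mul_le_mul_right _ h2)
  have h3R : (W1 : ℝ) ^ (s - 1) ≤ P * Mc k s W1 n := by exact_mod_cast h3
  have h4 := hp1 W2 hW2 hR n
  have h5 : (Mc k s W1 n : ℝ) * Mc k s W2 n ≤ Mc k s W n := by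
    rw [hW12]; exact_mod_cast Mc_mul k s W1 W2 hW1 hW2 hcop n
  rw [hW12]
  push_cast
  rw [mul_pow, one_div, inv_mul_le_iff₀ (by positivity)]
  calc (W1 : ℝ) ^ (s - 1) * (W2 : ℝ) ^ (s - 1) ≤ (P * Mc k s W1 n) * (2 * Mc k s W2 n) :=
        mul_le_mul h3R h4 (by positivity) (by positivity)
    _ = 2 * P * ((Mc k s W1 n : ℝ) * Mc k s W2 n) := by ring
    _ ≤ 2 * P * Mc k s W n := mul_le_mul_of_nonneg_left h5 (by positivity)
    _ = _ := by rw [hW12]

end Pool.Agent.helper132_n
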