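import Pool.Agent.helper132_n.A4
import Pool.Agent.helper132_sph.LB4

/-! Counting tuples in a box with congruence and size conditions. -/

namespace Pool.Agent.helper132_n

open Finset Pool.Agent.helper132_sph Pool.Agent.helper132_poly Pool.Agent.helper132_quad Pool.Agent.helper132_h

lemma pow_diff_nat (k a D : ℕ) (hk : 1 ≤ k) : (a + D) ^ k ≤ a ^ k + k * D * (a + D) ^ (k - 1) := by
  obtain ⟨j, rfl⟩ : ∃ j, k = j + 1 := ⟨k - 1, by omega⟩
  rw [Nat.add_sub_cancel]
  induction j with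
  | zero => simp
  | succ j ih =>
    have h1 := ih (by omega)
    calc (a + D) ^ (j + 1 + 1) = (a + D) * (a + D) ^ (j + 1) := by ring
      _ ≤ (a + D) * (a ^ (j + 1) + (j + 1) * D * (a + D) ^ j) := Nat.mul_le_mul_left _ h1
      _ = a ^ (j + 1 + 1) + D * a ^ (j + 1) + (j + 1) * D * (a + D) ^ (j + 1) := by ring
      _ ≤ a ^ (j + 1 + 1) + D * (a + D) ^ (j + 1) + (j + 1) * D * (a + D) ^ (j + 1) := by
          have : D * a ^ (j + 1) ≤ D * (a + D) ^ (j + 1) := Nat.mul_le_mul_left _ (Nat.pow_le_pow_left (by omega) _)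
          omega
      _ = _ := by ring

/-- counting. -/
lemma box_count (k t W Y z0 D n : ℕ) (hk : 1 ≤ k) (hW : 1 ≤ W) (hz : (t + 1) * z0 ^ k ≤ n) (hnY : n < Y ^ k)
    (hDY : D ≤ Y) :
    Mc k (t + 1) W n * ((z0 / W) ^ t * (D / W)) ≤
      ((Fintype.piFinset (fun _ : Fin (t + 1) => range (2 * Y))).filter (fun y => (W : ℤ) ∣ (n : ℤ) - (∑ i, (y i) ^ k : ℕ) ∧
        ∑ i, (y i) ^ k ≤ n + k * D * (2 * Y) ^ (k - 1) ∧ n ≤ ∑ i, (y i) ^ k + k * D * (2 * Y) ^ (k - 1))).card := by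
  classical
  choose rt hrt1 hrt2 using fun N : ℕ => exists_root k N hk
  obtain ⟨tl, htl⟩ : ∃ tl : (Fin (t + 1) → ℕ) → (Fin t → ℕ) → Fin t → ℕ,
    tl = fun (ρ : Fin (t + 1) → ℕ) (e : Fin t → ℕ) (i : Fin t) => ρ i.succ + W * e i := ⟨_, rfl⟩
  obtain ⟨w0, hw0⟩ : ∃ w0 : (Fin t → ℕ) → ℕ, w0 = fun u => rt (n - ∑ i, (u i) ^ k) := ⟨_, rfl⟩
  obtain ⟨hd, hhd⟩ : ∃ hd : ℕ → (Fin t → ℕ) → ℕ → ℕ,
    hd = fun (r0 : ℕ) (u : Fin t → ℕ) (j : ℕ) => w0 u + W * j + (r0 + (W - w0 u % W)) % W := ⟨_, rfl⟩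
  have hcardE : ((Fintype.piFinset (fun _ : Fin t => range (z0 / W)))).card = (z0 / W) ^ t := by
    rw [Fintype.card_piFinset]; simp
  have hdmod : ∀ r0 u j, r0 < W → hd r0 u j % W = r0 := by
    intro r0 u j hr0
    rw [hhd]
    beta_reduce
    have h1 := Nat.mod_lt (w0 u) (by omega : 0 < W)
    have h2 := Nat.mod_add_div (w0 u) W
    have h3 : w0 u + W * j + (r0 + (W - w0 u % W)) % W ≡ r0 [MOD W] := by
      have h4 : (r0 + (W - w0 u % W)) % W ≡ r0 + (W - w0 u % W) [MOD W] := Nat.mod_modEq _ _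
      have h5 : w0 u + W * j + (r0 + (W - w0 u % W)) % W ≡ w0 u + W * j + (r0 + (W - w0 u % W)) [MOD W] :=
        Nat.ModEq.add_left _ h4
      refine h5.trans ?_
      have h6 : w0 u + W * j + (r0 + (W - w0 u % W)) = r0 + W * (w0 u / W + j + 1) := by
        have : W * (w0 u / W + j + 1) = W * (w0 u / W) + W * j + W := by ring
        omega
      rw [h6]
      unfold Nat.ModEq
      rw [Nat.add_mul_mod_self_left]
    unfold Nat.ModEq at h3
    rw [h3, Nat.mod_eq_of_lt hr0]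
  unfold Mc
  rw [← hcardE, ← Finset.card_range (D / W)]
  have hbox : ((Fintype.piFinset (fun _ : Fin t => range (z0 / W)))).card * (range (D / W)).card =
      ((Fintype.piFinset (fun _ : Fin t => range (z0 / W))) ×ˢ (range (D / W))).card := (Finset.card_product _ _).symm
  rw [Finset.card_range] at hbox ⊢
  rw [hbox, ← Finset.card_product]
  refine Finset.card_le_card_of_injOn
    (fun w => (Fin.cons (hd (w.1 0) (tl w.1 w.2.1) w.2.2) (tl w.1 w.2.1) : Fin (t + 1) → ℕ)) ?_ ?_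
  · intro w hw
    rw [Finset.mem_coe, Finset.mem_product, Finset.mem_product, Finset.mem_filter, Fintype.mem_piFinset,
      Fintype.mem_piFinset] at hw
    obtain ⟨⟨hρ1, hρ2⟩, he, hj⟩ := hw
    rw [Finset.mem_range] at hj
    have htlz : ∀ i, tl w.1 w.2.1 i < z0 := by
      intro i
      rw [htl]; beta_reduce
      have h1 := Finset.mem_range.1 (hρ1 i.succ)
      have h2 := Finset.mem_range.1 (he i)
      have h3 : W * (w.2.1 i + 1) ≤ W * (z0 / W) := Nat.mul_le_mul_left _ h2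
      have h4 := Nat.mul_div_le z0 W
      have h5 : W * (w.2.1 i + 1) = W * w.2.1 i + W := by ring
      omega
    obtain ⟨u, hu⟩ : ∃ u, u = tl w.1 w.2.1 := ⟨_, rfl⟩
    rw [← hu] at htlz
    have hsumu : ∑ i, (u i) ^ k ≤ t * z0 ^ k := by
      calc ∑ i, (u i) ^ k ≤ ∑ _i : Fin t, z0 ^ k := Finset.sum_le_sum fun i _ => Nat.pow_le_pow_left (htlz i).le _
        _ = t * z0 ^ k := by simp
    obtain ⟨r, hr⟩ : ∃ r, r = n - ∑ i, (u i) ^ k := ⟨_, rfl⟩
    have hzk : (t + 1) * z0 ^ k = t * z0 ^ k + z0 ^ k := by ring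
    have hrn : r + ∑ i, (u i) ^ k = n := by omega
    have hrz : z0 ^ k ≤ r := by omega
    obtain ⟨x, hx⟩ : ∃ x, x = w0 u := ⟨_, rfl⟩
    have hx1 : x ^ k ≤ r := by rw [hx, hw0, hr]; exact hrt1 _
    have hx2 : r < (x + 1) ^ k := by rw [hx, hw0, hr]; exact hrt2 _
    have hxY : x < Y := by
      by_contra h
      push Not at h
      have := Nat.pow_le_pow_left h k
      omega
    have hz0Y : z0 ≤ Y := by
      by_contra h
      push Not at h
      have h1 := Nat.pow_le_pow_left h.le k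
      have h2 : r ≤ n := by omega
      omega
    obtain ⟨y0, hy0⟩ : ∃ y0, y0 = hd (w.1 0) u w.2.2 := ⟨_, rfl⟩
    have hy0a : x ≤ y0 := by
      rw [hy0, hhd, hx]; beta_reduce; omega
    have hy0b : y0 < x + D := by
      rw [hy0, hhd]
      beta_reduce
      rw [← hx]
      have h1 := Nat.mod_lt (w.1 0 + (W - x % W)) (by omega : 0 < W)
      have h3 : W * (w.2.2 + 1) ≤ W * (D / W) := Nat.mul_le_mul_left _ hj
      have h4 := Nat.mul_div_le D W
      have h5 : W * (w.2.2 + 1) = W * w.2.2 + W := by ring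
      omega
    have hD1 : 1 ≤ D := by omega
    rw [Finset.mem_coe, Finset.mem_filter, Fintype.mem_piFinset]
    beta_reduce
    rw [← hu, ← hy0]
    have hsum : ∑ i, ((Fin.cons y0 u : Fin (t + 1) → ℕ) i) ^ k = y0 ^ k + ∑ i, (u i) ^ k := by
      rw [Fin.sum_univ_succ]
      simp only [Fin.cons_zero, Fin.cons_succ]
    rw [hsum]
    have hkey := pow_diff_nat k x D hk
    have hkD : k * D * (x + D) ^ (k - 1) ≤ k * D * (2 * Y) ^ (k - 1) :=
      Nat.mul_le_mul_left _ (Nat.pow_le_pow_left (by omega) _)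
    have hy0k : y0 ^ k ≤ (x + D) ^ k := Nat.pow_le_pow_left hy0b.le _
    have hrxD : r ≤ (x + D) ^ k := hx2.le.trans (Nat.pow_le_pow_left (by omega) _)
    have hxy0 : x ^ k ≤ y0 ^ k := Nat.pow_le_pow_left hy0a _
    refine ⟨?_, ?_, ?_, ?_⟩
    · intro i
      refine Fin.cases ?_ (fun i => ?_) i
      · rw [Fin.cons_zero, Finset.mem_range]; omega
      · rw [Fin.cons_succ, Finset.mem_range]
        have := htlz i
        omega
    · have h1 : (W : ℤ) ∣ ∑ i, ((w.1 i : ℕ) : ℤ) ^ k - ∑ i, (((Fin.cons y0 u : Fin (t + 1) → ℕ) i : ℕ) : ℤ) ^ k := by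
        refine sum_congr_dvd _ _ _ _ k fun i _ => ?_
        refine Fin.cases ?_ (fun i => ?_) i
        · rw [Fin.cons_zero]
          have h2 := hdmod (w.1 0) u w.2.2 (Finset.mem_range.1 (hρ1 0))
          rw [← hy0] at h2
          have h3 := Nat.mod_add_div y0 W
          rw [h2] at h3
          refine ⟨-((y0 / W : ℕ) : ℤ), ?_⟩
          have h4 : ((w.1 0 : ℕ) : ℤ) + W * ((y0 / W : ℕ) : ℤ) = y0 := by exact_mod_cast h3
          linarith
        · rw [Fin.cons_succ, hu, htl]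
          beta_reduce
          refine ⟨-(w.2.1 i : ℤ), ?_⟩
          push_cast; ring
      have h2 := dvd_add hρ2 h1
      rw [sub_add_sub_cancel] at h2
      rw [← hsum]
      push_cast
      exact h2
    · omega
    · omega
  · intro w hw w' hw' hww
    rw [Finset.mem_coe, Finset.mem_product, Finset.mem_product, Finset.mem_filter, Fintype.mem_piFinset,
      Fintype.mem_piFinset] at hw hw'
    obtain ⟨⟨hρ1, -⟩, he, hj⟩ := hw
    obtain ⟨⟨hρ1', -⟩, he', hj'⟩ := hw'
    beta_reduce at hww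
    obtain ⟨hhead, htail⟩ := Fin.cons_injective2 hww
    have h1 : ∀ i : Fin t, w.1 i.succ = w'.1 i.succ ∧ w.2.1 i = w'.2.1 i := by
      intro i
      have h2 := congrFun htail i
      rw [htl] at h2
      beta_reduce at h2
      have h3 := Finset.mem_range.1 (hρ1 i.succ)
      have h4 := Finset.mem_range.1 (hρ1' i.succ)
      have h5 : (w.1 i.succ + W * w.2.1 i) % W = (w'.1 i.succ + W * w'.2.1 i) % W := by rw [h2]
      rw [Nat.add_mul_mod_self_left, Nat.add_mul_mod_self_left, Nat.mod_eq_of_lt h3, Nat.mod_eq_of_lt h4] at h5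
      refine ⟨h5, ?_⟩
      have h6 : W * w.2.1 i = W * w'.2.1 i := by omega
      exact Nat.eq_of_mul_eq_mul_left (by omega) h6
    rw [htail] at hhead
    obtain ⟨u, hu⟩ : ∃ u, u = tl w'.1 w'.2.1 := ⟨_, rfl⟩
    rw [← hu] at hhead
    have h0 : w.1 0 = w'.1 0 := by
      have h2 := hdmod (w.1 0) u w.2.2 (Finset.mem_range.1 (hρ1 0))
      have h3 := hdmod (w'.1 0) u w'.2.2 (Finset.mem_range.1 (hρ1' 0))
      rw [hhead] at h2
      exact h2.symm.trans h3
    have hjj : w.2.2 = w'.2.2 := by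
      rw [h0, hhd] at hhead
      beta_reduce at hhead
      have h3 : W * w.2.2 = W * w'.2.2 := by omega
      exact Nat.eq_of_mul_eq_mul_left (by omega) h3
    refine Prod.ext ?_ (Prod.ext ?_ hjj)
    · funext i
      refine Fin.cases h0 (fun i => (h1 i).1) i
    · funext i
      exact (h1 i).2

end Pool.Agent.helper132_n
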