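import Pool.Agent.helper132_n.A5
import Pool.Agent.helper132_h.H26

/-! Lower bound for the number of representations with few variables. -/

namespace Pool.Agent.helper132_n

open Finset Pool.Agent.helper132_sph Pool.Agent.helper132_poly Pool.Agent.helper132_quad Pool.Agent.helper132_h

lemma Phi_diff_s (k X s' s P n n' : ℕ) (hX : 1 ≤ X) (hs : 2 * s' + 1 ≤ s) (σ : ℝ) (hσ : σ = 2 * (s' : ℝ) + 1 / 2) (ε1 κ1 : ℝ)
    (hε : 0 ≤ ε1) (hκ1 : 0 ≤ κ1)
    (hdec : ∀ α : ℝ, ‖fS k X α‖ ≤ ε1 ^ 2 * X ∨ ‖ec (-(α * n)) - ec (-(α * n'))‖ ≤ κ1) :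
    ‖Phi k X s P n - Phi k X s P n'‖ ≤
      (X : ℝ) ^ s * (∑ a ∈ range P, (‖fS k X ((a : ℝ) / P)‖ / X) ^ σ) * (2 * ε1 + κ1) := by
  classical
  have hXR : (0 : ℝ) < X := by exact_mod_cast hX
  unfold Phi
  rw [← Finset.sum_sub_distrib]
  refine (norm_sum_le _ _).trans ?_
  rw [Finset.mul_sum, Finset.sum_mul]
  refine Finset.sum_le_sum fun a _ => ?_
  obtain ⟨α, hα⟩ : ∃ α : ℝ, α = (a : ℝ) / P := ⟨_, rfl⟩
  rw [← hα]
  obtain ⟨v, hv⟩ : ∃ v : ℝ, v = ‖fS k X α‖ := ⟨_, rfl⟩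
  have hv0 : 0 ≤ v := by rw [hv]; exact norm_nonneg _
  have hvX : v ≤ X := by rw [hv]; exact norm_fS_le _ _ _
  rw [← sub_mul, norm_mul, norm_pow, ← hv]
  have hvX1 : v / X ≤ 1 := by rw [div_le_one hXR]; exact hvX
  have hvX0 : 0 ≤ v / X := by positivity
  have hE2 : ‖ec (-(α * n)) - ec (-(α * n'))‖ ≤ 2 := by
    refine (norm_sub_le _ _).trans ?_
    rw [norm_ec, norm_ec]; norm_num
  have hvs : v ^ s ≤ (X : ℝ) ^ s * (v / X) ^ σ * (v / X) ^ ((1 : ℝ) / 2) := by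
    have h1 : (v / X) ^ σ * (v / X) ^ ((1 : ℝ) / 2) = (v / X) ^ (2 * s' + 1) := by
      rcases hvX0.eq_or_lt with h | h
      · rw [← h, Real.zero_rpow (x := (1 : ℝ) / 2) (by norm_num), mul_zero, zero_pow (by omega)]
      · rw [← Real.rpow_add h, ← Real.rpow_natCast, hσ]
        congr 1
        push_cast
        ring
    have h2 : v ^ s = (X : ℝ) ^ s * (v / X) ^ s := by rw [div_pow]; field_simp
    rw [mul_assoc, h1, h2]
    exact mul_le_mul_of_nonneg_left (pow_le_pow_of_le_one hvX0 hvX1 hs) (by positivity)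
  rcases hdec α with h | h
  · rw [← hv] at h
    have h1 : (v / X) ^ ((1 : ℝ) / 2) ≤ ε1 := by
      have h2 : v / X ≤ ε1 ^ 2 := by rw [div_le_iff₀ hXR]; exact h
      calc (v / X) ^ ((1 : ℝ) / 2) ≤ (ε1 ^ 2) ^ ((1 : ℝ) / 2) := Real.rpow_le_rpow hvX0 h2 (by norm_num)
        _ = ε1 := by
            rw [← Real.rpow_natCast, ← Real.rpow_mul hε]; norm_num
    calc ‖ec (-(α * n)) - ec (-(α * n'))‖ * v ^ s ≤ 2 * ((X : ℝ) ^ s * (v / X) ^ σ * ε1) := by
          refine mul_le_mul hE2 (hvs.trans ?_) (by positivity) (by norm_num)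
          gcongr
      _ = (X : ℝ) ^ s * (v / X) ^ σ * (2 * ε1) := by ring
      _ ≤ _ := by
          refine mul_le_mul_of_nonneg_left ?_ (by positivity)
          linarith
  · have h1 : (v / X) ^ ((1 : ℝ) / 2) ≤ 1 := Real.rpow_le_one hvX0 hvX1 (by norm_num)
    calc ‖ec (-(α * n)) - ec (-(α * n'))‖ * v ^ s
        ≤ κ1 * ((X : ℝ) ^ s * (v / X) ^ σ * 1) := by
          refine mul_le_mul h (hvs.trans ?_) (by positivity) hκ1
          gcongr
      _ = (X : ℝ) ^ s * (v / X) ^ σ * κ1 := by ring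
      _ ≤ _ := by
          refine mul_le_mul_of_nonneg_left ?_ (by positivity)
          linarith

lemma dec_lemma (k A : ℕ) (C : ℝ) (hC : 1 ≤ C) (hWH : WH k A C) (ε : ℝ) (hε0 : 0 < ε) :
    ∃ Q : ℕ, 1 ≤ Q ∧ ∀ X : ℕ, Q < X → ∀ n n' : ℕ, ((Nat.factorial Q : ℕ) : ℤ) ∣ (n : ℤ) - n' → ∀ α : ℝ,
      ‖fS k X α‖ ≤ ε * X ∨
        ‖ec (-(α * n)) - ec (-(α * n'))‖ ≤ 2 * Real.pi * ((Q / (X : ℝ) ^ k) * |(n : ℝ) - n'|) := by
  have hpi := Real.pi_pos
  obtain ⟨Q, hQ⟩ := exists_nat_ge (C / ε ^ A)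
  have hQ0 : (0 : ℝ) < Q := lt_of_lt_of_le (by positivity) hQ
  have hQ1 : 1 ≤ Q := by exact_mod_cast hQ0
  refine ⟨Q, hQ1, ?_⟩
  intro X hX n n0 hWn α
  have hX1 : 1 ≤ X := by omega
  have hXR : (1 : ℝ) ≤ X := by exact_mod_cast hX1
  have hX0 : (0 : ℝ) < X := by linarith
  have hXk : (0 : ℝ) < (X : ℝ) ^ k := by positivity
  by_cases hcase : ‖fS k X α‖ ≤ ε * X
  · left; exact hcase
  push Not at hcase
  right
  have hWX := hWH X hX1 α (fun n : ℤ => α * (n : ℝ) ^ k) (PP.pow k α) 0 X (by simp)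
  obtain ⟨u, hu⟩ : ∃ u : ℝ, u = ‖fS k X α‖ / X := ⟨_, rfl⟩
  have hu' : ‖∑ n ∈ Ico (0 : ℤ) X, ec ((fun n : ℤ => α * (n : ℝ) ^ k) n)‖ / X = u := by
    rw [hu]; rfl
  rw [hu'] at hWX
  have huε : ε ≤ u := by rw [hu, le_div_iff₀ hX0]; exact hcase.le
  have huA : ε ^ A ≤ u ^ A := pow_le_pow_left₀ hε0.le huε A
  have hconv : ∀ z : ℝ, 0 ≤ z → z * u ^ A ≤ C → z ≤ Q := by
    intro z hz hzC
    refine le_trans ?_ hQ
    rw [le_div_iff₀ (by positivity)]
    exact (mul_le_mul_of_nonneg_left huA hz).trans hzC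
  have hnd : ¬ (u ^ A * X ≤ C) := by
    intro h
    have h1 := hconv X hX0.le (by rw [mul_comm]; exact h)
    have h2 : X ≤ Q := by exact_mod_cast h1
    omega
  obtain ⟨q, c, hq, h1, h2⟩ := hWX.resolve_left hnd
  have hqQ : q ≤ Q := by exact_mod_cast hconv q (Nat.cast_nonneg _) h1
  have hqR : (1 : ℝ) ≤ q := by exact_mod_cast hq
  have hq0 : (0 : ℝ) < q := by linarith
  have hβ : |(q : ℝ) * α - c| * (X : ℝ) ^ k ≤ Q := by
    refine hconv _ (by positivity) ?_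
    calc |(q : ℝ) * α - c| * (X : ℝ) ^ k * u ^ A = |(q : ℝ) * α - c| * u ^ A * (X : ℝ) ^ k := by ring
      _ ≤ C := h2
  obtain ⟨w, hw⟩ : (q : ℤ) ∣ (n : ℤ) - n0 := by
    refine dvd_trans ?_ hWn
    exact_mod_cast Nat.dvd_factorial (by omega) hqQ
  have hwR : (n : ℝ) - n0 = q * w := by exact_mod_cast hw
  have e1 : -(α * n) = (-(α * n0) - (q * α - c) * w) + (((-(c * w) : ℤ)) : ℝ) := by
    have : (n : ℝ) = n0 + q * w := by linarith
    rw [this]; push_cast; ring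
  rw [e1, ec_add_int]
  refine (norm_ec_sub_le _ _).trans ?_
  have e2 : -(α * (n0 : ℝ)) - (q * α - c) * w - -(α * n0) = -((q * α - c) * w) := by ring
  rw [e2, abs_neg, abs_mul]
  have hw' : |(w : ℝ)| ≤ |(n : ℝ) - n0| := by
    rw [hwR, abs_mul, abs_of_pos hq0]
    exact le_mul_of_one_le_left (abs_nonneg _) hqR
  have hβ' : |(q : ℝ) * α - c| ≤ Q / (X : ℝ) ^ k := by rw [le_div_iff₀ hXk]; exact hβ
  refine mul_le_mul_of_nonneg_left ?_ (by positivity)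
  exact mul_le_mul hβ' hw' (abs_nonneg _) (by positivity)

/-- number of integers in a class near `n`. -/
lemma class_card (n Δ W : ℕ) (hW : 1 ≤ W) (hWΔ : W ≤ Δ) (S : Finset ℕ)
    (hS : ∀ m ∈ S, (W : ℤ) ∣ (n : ℤ) - m ∧ m ≤ n + Δ ∧ n ≤ m + Δ) : (S.card : ℝ) * W ≤ 3 * Δ := by
  classical
  have h1 : S.card ≤ 2 * (Δ / W) + 1 := by
    have h2 : S.card ≤ (Icc (-((Δ / W : ℕ) : ℤ)) ((Δ / W : ℕ) : ℤ)).card := by
      refine Finset.card_le_card_of_injOn (fun m => ((n : ℤ) - m) / W) ?_ ?_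
      · intro m hm
        obtain ⟨⟨z, hz⟩, h3, h4⟩ := hS m hm
        rw [Finset.mem_coe, Finset.mem_Icc]
        have hWz : (0 : ℤ) < W := by exact_mod_cast hW
        have h5 : ((n : ℤ) - m) / W = z := by rw [hz]; exact Int.mul_ediv_cancel_left z hWz.ne'
        beta_reduce
        rw [h5]
        have h6 : (W : ℤ) * z ≤ Δ := by rw [← hz]; omega
        have h7 : -(Δ : ℤ) ≤ W * z := by rw [← hz]; omega
        have h8 : ((Δ / W : ℕ) : ℤ) = (Δ : ℤ) / W := by push_cast; rfl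
        rw [h8]
        constructor
        · have h9 : -z ≤ (Δ : ℤ) / W := by
            rw [Int.le_ediv_iff_mul_le hWz]
            linarith
          linarith
        · rw [Int.le_ediv_iff_mul_le hWz]; linarith
      · intro m hm m' hm' hmm
        obtain ⟨⟨z, hz⟩, -, -⟩ := hS m hm
        obtain ⟨⟨z', hz'⟩, -, -⟩ := hS m' hm'
        have hWz : (0 : ℤ) < W := by exact_mod_cast hW
        beta_reduce at hmm
        rw [hz, hz', Int.mul_ediv_cancel_left z hWz.ne', Int.mul_ediv_cancel_left z' hWz.ne'] at hmm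
        rw [hmm] at hz
        have : (m : ℤ) = m' := by linarith
        exact_mod_cast this
    rw [Int.card_Icc] at h2
    omega
  have h2 : S.card * W ≤ 3 * Δ := by
    calc S.card * W ≤ (2 * (Δ / W) + 1) * W := Nat.mul_le_mul_right _ h1
      _ = 2 * (W * (Δ / W)) + W := by ring
      _ ≤ 2 * Δ + Δ := by
          have := Nat.mul_div_le Δ W
          omega
      _ = 3 * Δ := by ring
  exact_mod_cast h2

end Pool.Agent.helper132_n
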