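import Pool.Agent.helper132_n.A6

/-! Lower bound for the number of lattice points on the spheres. -/

namespace Pool.Agent.helper132_n

open Finset Pool.Agent.helper132_sph Pool.Agent.helper132_poly Pool.Agent.helper132_quad Pool.Agent.helper132_h

lemma half_div (a W : ℕ) (hW : 1 ≤ W) (h : W ≤ a) : (a : ℝ) / (2 * W) ≤ ((a / W : ℕ) : ℝ) := by
  have hWR : (0 : ℝ) < W := by exact_mod_cast hW
  have h1 := Nat.lt_div_mul_add (a := a) (b := W) (by omega)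
  have h2 : (a : ℝ) < ((a / W : ℕ) : ℝ) * W + W := by exact_mod_cast h1
  have h3 : 1 ≤ a / W := (Nat.one_le_div_iff (by omega)).2 h
  have h4 : (1 : ℝ) ≤ ((a / W : ℕ) : ℝ) := by exact_mod_cast h3
  rw [div_le_iff₀ (by positivity)]
  nlinarith

/-- the number of representations is large. -/
lemma rep_lower (k A s' : ℕ) (hk : 3 ≤ k) (C : ℝ) (hC : 1 ≤ C) (hWH : WH k A C) (hA : 1 ≤ A)
    (hs' : 1 ≤ s') (η CJ : ℝ) (hη : η ≤ 1 / (4 * (A : ℝ))) (hCJ : 1 ≤ CJ) (hJ : MVT k s' η CJ)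
    (hσ2 : 27 * (2 * (k : ℝ) - 1) ≤ 11 * (2 * (s' : ℝ) + 1 / 2))
    (d : ℕ) (hd : 2 * s' + 1 ≤ d) (hd2 : k ^ 2 + k + 1 ≤ d) : ∃ c : ℝ, 0 < c ∧ ∃ Y0 : ℕ, 1 ≤ Y0 ∧
    ∀ (n w : ℕ), Y0 ≤ w → w ^ k ≤ n → n < (w + 1) ^ k →
      c * (((2 * (w + 1) : ℕ) : ℝ)) ^ d ≤ (((2 * (w + 1) : ℕ) : ℝ)) ^ k * cS k (2 * (w + 1)) d n := by
  classical
  obtain ⟨c0, hc00, hc0⟩ := local_main k hk d hd2
  obtain ⟨t, ht⟩ : ∃ t, d = t + 1 := ⟨d - 1, by omega⟩
  have hd1 : 1 ≤ d := by omega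
  have hdR : (1 : ℝ) ≤ d := by exact_mod_cast hd1
  have hkR : (3 : ℝ) ≤ k := by exact_mod_cast hk
  obtain ⟨M, hM1, hmv⟩ := mean_value_n k A s' hk C hC hWH hA hs' η CJ hη hCJ hJ _ rfl hσ2 (2 * d) (by omega)
  have hM0 : 0 < M := by linarith
  have hpi := Real.pi_pos
  obtain ⟨c2, hc2⟩ : ∃ c2 : ℝ, c2 = c0 / (2 ^ d * ((8 * d) ^ t * (6 * k))) := ⟨_, rfl⟩
  have hc20 : 0 < c2 := by rw [hc2]; positivity
  obtain ⟨ε1, hε1⟩ : ∃ ε1 : ℝ, ε1 = d * c2 / (4 * M) := ⟨_, rfl⟩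
  obtain ⟨κ1, hκ1⟩ : ∃ κ1 : ℝ, κ1 = d * c2 / (2 * M) := ⟨_, rfl⟩
  have hε10 : 0 < ε1 := by rw [hε1]; positivity
  have hκ10 : 0 < κ1 := by rw [hκ1]; positivity
  obtain ⟨Q, hQ1, hQ⟩ := dec_lemma k A C hC hWH (ε1 ^ 2) (by positivity)
  have hQR : (1 : ℝ) ≤ Q := by exact_mod_cast hQ1
  obtain ⟨W, hW⟩ : ∃ W : ℕ, W = Nat.factorial Q := ⟨_, rfl⟩
  rw [← hW] at hQ
  have hW1 : 1 ≤ W := by rw [hW]; exact Nat.factorial_pos _
  have hWR : (0 : ℝ) < W := by exact_mod_cast hW1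
  obtain ⟨δ, hδ⟩ : ∃ δ : ℝ, δ = min 1 (κ1 / (2 * Real.pi * Q)) := ⟨_, rfl⟩
  have hδ0 : 0 < δ := by rw [hδ]; exact lt_min one_pos (by positivity)
  have hδ1 : δ ≤ 1 := by rw [hδ]; exact min_le_left _ _
  have hδ2 : 2 * Real.pi * Q * δ ≤ κ1 := by
    have : δ ≤ κ1 / (2 * Real.pi * Q) := by rw [hδ]; exact min_le_right _ _
    rw [le_div_iff₀ (by positivity)] at this
    linarith
  obtain ⟨Y1, hY1⟩ := exists_nat_ge (k * W / δ)
  refine ⟨c2 / 2, by positivity, Q + 2 * d * W + Y1 + 1, by omega, ?_⟩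
  intro n w hw hw1 hw2
  obtain ⟨Y, hY⟩ : ∃ Y, Y = w + 1 := ⟨_, rfl⟩
  rw [← hY] at hw2 ⊢
  have hYR : (1 : ℝ) ≤ Y := by exact_mod_cast (by omega : 1 ≤ Y)
  have hY0 : (0 : ℝ) < Y := by linarith
  obtain ⟨X, hX⟩ : ∃ X, X = 2 * Y := ⟨_, rfl⟩
  rw [← hX]
  have hXR : (X : ℝ) = 2 * Y := by rw [hX]; push_cast; ring
  have hX1 : 1 ≤ X := by omega
  have hX0 : (0 : ℝ) < X := by exact_mod_cast hX1
  have hXk : (0 : ℝ) < (X : ℝ) ^ k := by positivity
  -- parameters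
  obtain ⟨z0, hz0⟩ : ∃ z0, z0 = w / d := ⟨_, rfl⟩
  have hdw : d * z0 ≤ w := by rw [hz0]; exact Nat.mul_div_le _ _
  have hz0n : (t + 1) * z0 ^ k ≤ n := by
    rw [← ht]
    calc d * z0 ^ k ≤ d ^ k * z0 ^ k := Nat.mul_le_mul_right _ (Nat.le_self_pow (by omega) _)
      _ = (d * z0) ^ k := (Nat.mul_pow _ _ _).symm
      _ ≤ w ^ k := Nat.pow_le_pow_left hdw _
      _ ≤ n := hw1
  have hWz0 : W ≤ z0 := by
    rw [hz0, Nat.le_div_iff_mul_le (by omega)]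
    have : W * d ≤ 2 * d * W := by nlinarith
    omega
  have hz0Y : (Y : ℝ) / (4 * d) ≤ z0 := by
    have h1 := Nat.lt_div_mul_add (a := w) (b := d) (by omega)
    rw [← hz0] at h1
    have h2 : Y ≤ 4 * d * z0 := by
      have h3 : 1 ≤ z0 := by omega
      have h4 : d ≤ d * z0 := Nat.le_mul_of_pos_right _ h3
      have h5 : z0 * d = d * z0 := by ring
      have h6 : 4 * d * z0 = 4 * (d * z0) := by ring
      omega
    rw [div_le_iff₀ (by positivity)]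
    have : (Y : ℝ) ≤ 4 * d * z0 := by exact_mod_cast h2
    linarith
  obtain ⟨D, hD⟩ : ∃ D : ℕ, D = ⌊δ * Y / k⌋₊ := ⟨_, rfl⟩
  have hDa : (D : ℝ) ≤ δ * Y / k := by rw [hD]; exact Nat.floor_le (by positivity)
  have hkWY : k * W ≤ δ * Y := by
    have h1 : (Y1 : ℝ) ≤ Y := by exact_mod_cast (by omega : Y1 ≤ Y)
    have h2 := hY1.trans h1
    rw [div_le_iff₀ hδ0] at h2
    linarith
  have hWD' : (W : ℝ) ≤ δ * Y / k := by
    rw [le_div_iff₀ (by linarith)]; linarith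
  have hWD : W ≤ D := by rw [hD]; exact Nat.le_floor hWD'
  have hDb : δ * Y / (2 * k) ≤ D := by
    have h1 : δ * Y / k < D + 1 := by rw [hD]; exact Nat.lt_floor_add_one _
    have h2 : (1 : ℝ) ≤ D := by exact_mod_cast (by omega : 1 ≤ D)
    have h3 : δ * Y / (2 * k) = δ * Y / k / 2 := by field_simp
    rw [h3]; linarith
  have hDY : D ≤ Y := by
    have h1 : (D : ℝ) ≤ Y := by
      refine hDa.trans ?_
      rw [div_le_iff₀ (by linarith)]
      nlinarith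
    exact_mod_cast h1
  have hbox := box_count k t W Y z0 D n (by omega) hW1 hz0n hw2 hDY
  rw [← ht, ← hX] at hbox
  obtain ⟨Δ, hΔ⟩ : ∃ Δ, Δ = k * D * X ^ (k - 1) := ⟨_, rfl⟩
  rw [← hΔ] at hbox
  have hΔR : (Δ : ℝ) ≤ δ * (X : ℝ) ^ k / 2 := by
    rw [hΔ]; push_cast
    have h1 : (k : ℝ) * D ≤ δ * Y := by
      rw [le_div_iff₀ (by linarith)] at hDa
      linarith
    have h2 : (X : ℝ) ^ k = (X : ℝ) ^ (k - 1) * X := by rw [← pow_succ]; congr 1; omega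
    calc (k : ℝ) * D * (X : ℝ) ^ (k - 1) ≤ δ * Y * (X : ℝ) ^ (k - 1) := mul_le_mul_of_nonneg_right h1 (by positivity)
      _ = δ * (X : ℝ) ^ k / 2 := by rw [h2, hXR]; ring
  have hWΔ : W ≤ Δ := by
    rw [hΔ]
    have h1 : 1 ≤ k * X ^ (k - 1) := Nat.mul_pos (by omega) (Nat.one_le_pow _ _ hX1)
    calc W ≤ D * 1 := by omega
      _ ≤ D * (k * X ^ (k - 1)) := Nat.mul_le_mul_left _ h1
      _ = _ := by ring
  obtain ⟨𝒞, h𝒞⟩ : ∃ 𝒞, 𝒞 = ((Fintype.piFinset (fun _ : Fin d => range X)).filter (fun y => (W : ℤ) ∣ (n : ℤ) - (∑ i, (y i) ^ k : ℕ) ∧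
        ∑ i, (y i) ^ k ≤ n + Δ ∧ n ≤ ∑ i, (y i) ^ k + Δ)) := ⟨_, rfl⟩
  rw [← h𝒞] at hbox
  -- lower bound for the card of C
  have hCl : c0 * (Y : ℝ) ^ d * δ / ((8 * d) ^ t * (4 * k)) ≤ 𝒞.card * W := by
    have h1 : (Mc k d W n : ℝ) * (((z0 / W : ℕ) : ℝ) ^ t * ((D / W : ℕ) : ℝ)) ≤ 𝒞.card := by exact_mod_cast hbox
    have h2 := hc0 W hW1 n
    have ht1 : d - 1 = t := by omega
    rw [ht1] at h2
    have h3 := half_div z0 W hW1 hWz0
    have h4 := half_div D W hW1 hWD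
    have h5 : (Y : ℝ) / (8 * d * W) ≤ ((z0 / W : ℕ) : ℝ) := by
      refine le_trans (le_of_eq_of_le ?_ (div_le_div_of_nonneg_right hz0Y (by positivity : (0 : ℝ) ≤ 2 * W))) h3
      field_simp; ring
    have h6 : δ * Y / (4 * k * W) ≤ ((D / W : ℕ) : ℝ) := by
      refine le_trans (le_of_eq_of_le ?_ (div_le_div_of_nonneg_right hDb (by positivity : (0 : ℝ) ≤ 2 * W))) h4
      field_simp; ring
    have h7 : c0 * (W : ℝ) ^ t * (((Y : ℝ) / (8 * d * W)) ^ t * (δ * Y / (4 * k * W))) ≤ 𝒞.card := by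
      refine le_trans ?_ h1
      refine mul_le_mul h2 ?_ (by positivity) (Nat.cast_nonneg _)
      exact mul_le_mul (pow_le_pow_left₀ (by positivity) h5 _) h6 (by positivity) (by positivity)
    refine le_trans (le_of_eq ?_) (mul_le_mul_of_nonneg_right h7 hWR.le)
    rw [ht, pow_succ, div_pow, mul_pow (8 * ((t + 1 : ℕ) : ℝ))]
    field_simp
  -- fibers
  obtain ⟨N', hN'⟩ : ∃ N' : Finset ℕ, N' = 𝒞.image (fun y => ∑ i, (y i) ^ k) := ⟨_, rfl⟩
  have hN'p : ∀ m ∈ N', (W : ℤ) ∣ (n : ℤ) - m ∧ m ≤ n + Δ ∧ n ≤ m + Δ := by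
    intro m hm
    rw [hN', Finset.mem_image] at hm
    obtain ⟨y, hy, rfl⟩ := hm
    rw [h𝒞, Finset.mem_filter] at hy
    exact hy.2
  have hcl := class_card n Δ W hW1 hWΔ N' hN'p
  have hCpos : 0 < 𝒞.card := by
    have h1 : (0 : ℝ) < 𝒞.card * W := lt_of_lt_of_le (by positivity) hCl
    have h2 : (0 : ℝ) < 𝒞.card := pos_of_mul_pos_left h1 hWR.le
    exact_mod_cast h2
  have hex : ∃ m ∈ N', (𝒞.card : ℝ) ≤ N'.card * cS k X d m := by
    by_contra hcon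
    push Not at hcon
    have h1 : 𝒞.card = ∑ m ∈ N', (𝒞.filter (fun y => ∑ i, (y i) ^ k = m)).card := by
      refine Finset.card_eq_sum_card_fiberwise ?_
      intro y hy
      rw [hN']
      exact Finset.mem_image_of_mem _ hy
    have h2 : ∀ m ∈ N', ((𝒞.filter (fun y => ∑ i, (y i) ^ k = m)).card : ℝ) ≤ cS k X d m := by
      intro m _
      have : (𝒞.filter (fun y => ∑ i, (y i) ^ k = m)).card ≤ cS k X d m := by
        unfold cS
        refine Finset.card_le_card ?_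
        refine Finset.filter_subset_filter _ ?_
        rw [h𝒞]; exact Finset.filter_subset _ _
      exact_mod_cast this
    have hne : N'.Nonempty := by
      rw [hN', Finset.image_nonempty]; exact Finset.card_pos.1 hCpos
    have hNc : (0 : ℝ) < N'.card := by exact_mod_cast Finset.card_pos.2 hne
    have h3 : (N'.card : ℝ) * 𝒞.card < N'.card * 𝒞.card := by
      calc (N'.card : ℝ) * 𝒞.card = N'.card * ∑ m ∈ N', ((𝒞.filter (fun y => ∑ i, (y i) ^ k = m)).card : ℝ) := by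
            conv_lhs => rw [h1]
            push_cast; rfl
        _ ≤ N'.card * ∑ m ∈ N', (cS k X d m : ℝ) := mul_le_mul_of_nonneg_left (Finset.sum_le_sum h2) hNc.le
        _ = ∑ m ∈ N', (N'.card : ℝ) * cS k X d m := by rw [Finset.mul_sum]
        _ < ∑ _m ∈ N', (𝒞.card : ℝ) := Finset.sum_lt_sum_of_nonempty hne hcon
        _ = _ := by rw [Finset.sum_const, nsmul_eq_mul]
    exact absurd h3 (lt_irrefl _)
  obtain ⟨m, hm, hmC⟩ := hex
  obtain ⟨hm1, hm2, hm3⟩ := hN'p m hm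
  have hcSm : c2 * (X : ℝ) ^ d ≤ (X : ℝ) ^ k * cS k X d m := by
    have h1 : (𝒞.card : ℝ) * W ≤ (3 * Δ) * cS k X d m := by
      calc (𝒞.card : ℝ) * W ≤ (N'.card * cS k X d m) * W := mul_le_mul_of_nonneg_right hmC hWR.le
        _ = (N'.card * W) * cS k X d m := by ring
        _ ≤ _ := mul_le_mul_of_nonneg_right hcl (Nat.cast_nonneg _)
    have h2 : (3 * (Δ : ℝ)) * cS k X d m ≤ (3 * (δ * (X : ℝ) ^ k / 2)) * cS k X d m := by gcongr
    have h3 := hCl.trans (h1.trans h2)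
    have h4 : c0 * (Y : ℝ) ^ d * δ / ((8 * d) ^ t * (4 * k)) = (c2 * (X : ℝ) ^ d) * (3 / 2 * δ) := by
      rw [hc2, hXR, mul_pow]
      field_simp
      ring
    have h5 : (3 * (δ * (X : ℝ) ^ k / 2)) * cS k X d m = ((X : ℝ) ^ k * cS k X d m) * (3 / 2 * δ) := by ring
    rw [h4, h5] at h3
    exact le_of_mul_le_mul_right h3 (by positivity)
  -- comparison
  obtain ⟨P, hP⟩ : ∃ P : ℕ, P = 2 * d * X ^ k := ⟨_, rfl⟩
  have hXkn : 1 ≤ X ^ k := Nat.one_le_pow _ _ hX1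
  have hP1 : 1 ≤ P := by
    rw [hP]; exact Nat.mul_pos (by omega) hXkn
  have hPR : (P : ℝ) = 2 * d * (X : ℝ) ^ k := by rw [hP]; push_cast; ring
  have hval2 : ∀ y ∈ Fintype.piFinset (fun _ : Fin d => range X), ∑ j, (y j) ^ k < P := by
    intro y hy
    rw [Fintype.mem_piFinset] at hy
    calc ∑ j, (y j) ^ k ≤ ∑ _j : Fin d, X ^ k :=
          Finset.sum_le_sum fun j _ => Nat.pow_le_pow_left (Finset.mem_range.1 (hy j)).le _
      _ = d * X ^ k := by simp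
      _ < P := by
          rw [hP, mul_assoc]
          have : 1 ≤ d * X ^ k := Nat.mul_pos hd1 hXkn
          omega
  have hnX : n < X ^ k := lt_of_lt_of_le hw2 (Nat.pow_le_pow_left (by omega) _)
  have hXkP : 2 * X ^ k ≤ P := by
    rw [hP]
    exact Nat.mul_le_mul_right _ (by omega)
  have hnP : n < P := by omega
  have hmP : m < P := by
    rw [hN', Finset.mem_image] at hm
    obtain ⟨y, hy, rfl⟩ := hm
    rw [h𝒞, Finset.mem_filter] at hy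
    exact hval2 y hy.1
  have e1 := Phi_eq k X d P n hP1 hnP hval2
  have e2 := Phi_eq k X d P m hP1 hmP hval2
  have hmv2 := hmv X hX1
  rw [← hP] at hmv2
  have hnm : |(n : ℝ) - m| ≤ δ * (X : ℝ) ^ k := by
    have h1 : (m : ℝ) ≤ n + Δ := by exact_mod_cast hm2
    have h2 : (n : ℝ) ≤ m + Δ := by exact_mod_cast hm3
    have h3 : 0 ≤ δ * (X : ℝ) ^ k := by positivity
    rw [abs_le]
    constructor <;> linarith
  have hdec : ∀ α : ℝ, ‖fS k X α‖ ≤ ε1 ^ 2 * X ∨ ‖ec (-(α * n)) - ec (-(α * m))‖ ≤ κ1 := by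
    intro α
    rcases hQ X (by omega) n m hm1 α with h | h
    · left; exact h
    · right
      refine h.trans ?_
      calc 2 * Real.pi * ((Q / (X : ℝ) ^ k) * |(n : ℝ) - m|) ≤ 2 * Real.pi * ((Q / (X : ℝ) ^ k) * (δ * (X : ℝ) ^ k)) := by
            gcongr
        _ = 2 * Real.pi * Q * δ := by field_simp
        _ ≤ κ1 := hδ2
  have hdiff := Phi_diff_s k X s' d P n m hX1 hd _ rfl ε1 κ1 hε10.le hκ10.le hdec
  have hd2' : ‖Phi k X d P n - Phi k X d P m‖ ≤ d * c2 * (X : ℝ) ^ d := by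
    refine hdiff.trans ?_
    have h0 : 2 * ε1 + κ1 = d * c2 / M := by rw [hε1, hκ1]; field_simp; ring
    rw [h0]
    calc _ ≤ (X : ℝ) ^ d * M * (d * c2 / M) := by gcongr
      _ = _ := by field_simp
  rw [e1, e2] at hd2'
  have h6 : (P : ℝ) * cS k X d m - P * cS k X d n ≤ d * c2 * (X : ℝ) ^ d := by
    have h7 : ‖(P : ℂ) * cS k X d n - (P : ℂ) * cS k X d m‖ = |(P : ℝ) * cS k X d n - P * cS k X d m| := by
      rw [← Real.norm_eq_abs, ← Complex.norm_real]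
      push_cast
      rfl
    rw [h7, abs_sub_comm] at hd2'
    exact (le_abs_self _).trans hd2'
  have h8 : 2 * d * (c2 * (X : ℝ) ^ d) ≤ P * cS k X d m := by
    rw [hPR]
    calc 2 * (d : ℝ) * (c2 * (X : ℝ) ^ d) ≤ 2 * d * ((X : ℝ) ^ k * cS k X d m) :=
          mul_le_mul_of_nonneg_left hcSm (by positivity)
      _ = _ := by ring
  have h9 : 2 * (d : ℝ) * (c2 / 2 * (X : ℝ) ^ d) ≤ 2 * d * ((X : ℝ) ^ k * cS k X d n) := by
    have h10 : 2 * (d : ℝ) * ((X : ℝ) ^ k * cS k X d n) = P * cS k X d n := by rw [hPR]; ring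
    rw [h10]
    linarith
  exact le_of_mul_le_mul_left h9 (by positivity)

/-- lower bound for the number of representations. -/
theorem sphere_lower_x (k A s' : ℕ) (hk : 3 ≤ k) (C : ℝ) (hC : 1 ≤ C) (hWH : WH k A C) (hA : 1 ≤ A)
    (hs' : 1 ≤ s') (η CJ : ℝ) (hη : η ≤ 1 / (4 * (A : ℝ))) (hCJ : 1 ≤ CJ) (hJ : MVT k s' η CJ)
    (hσ2 : 27 * (2 * (k : ℝ) - 1) ≤ 11 * (2 * (s' : ℝ) + 1 / 2))
    (d : ℕ) (hd : 2 * s' + 1 ≤ d) (hd2 : k ^ 2 + k + 1 ≤ d) : ∃ c : ℝ, 0 < c ∧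
    ∀ (n : ℕ) (r : ℝ), 0 < r → r ^ k = n →
      c * r ^ (d - k) ≤ max 1 (((Rp k d n).card : ℕ) : ℝ) := by
  obtain ⟨c, hc, Y0, hY0, hmain⟩ := rep_lower k A s' hk C hC hWH hA hs' η CJ hη hCJ hJ hσ2 d hd hd2
  have hdk : k ≤ d := by nlinarith
  have hY0R : (0 : ℝ) < Y0 := by exact_mod_cast hY0
  refine ⟨min c (1 / (Y0 : ℝ) ^ (d - k)), lt_min hc (by positivity), ?_⟩
  intro n r hr hrn
  have hrk0 : 0 ≤ r ^ (d - k) := by positivity
  obtain ⟨w, hw1, hw2⟩ := exists_root k n (by omega)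
  rcases lt_or_ge w Y0 with hcase | hcase
  · refine le_trans ?_ (le_max_left _ _)
    refine (mul_le_mul_of_nonneg_right (min_le_right _ _) hrk0).trans ?_
    rw [one_div, inv_mul_le_iff₀ (by positivity), mul_one]
    refine pow_le_pow_left₀ hr.le ?_ _
    refine le_of_pow_le_pow_left₀ (n := k) (by omega) hY0R.le ?_
    rw [hrn]
    have : n ≤ Y0 ^ k := hw2.le.trans (Nat.pow_le_pow_left hcase _)
    exact_mod_cast this
  · refine le_trans ?_ (le_max_right _ _)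
    have h1 := hmain n w hcase hw1 hw2
    obtain ⟨X, hX⟩ : ∃ X : ℕ, X = 2 * (w + 1) := ⟨_, rfl⟩
    rw [← hX] at h1
    have hX0 : (0 : ℝ) < X := by exact_mod_cast (by omega : 0 < X)
    have h2 : (X : ℝ) ^ d = (X : ℝ) ^ k * (X : ℝ) ^ (d - k) := by rw [← pow_add]; congr 1; omega
    have h3 : c * (X : ℝ) ^ (d - k) ≤ cS k X d n := by
      have h4 : (X : ℝ) ^ k * (c * (X : ℝ) ^ (d - k)) ≤ (X : ℝ) ^ k * cS k X d n := by
        refine le_trans (le_of_eq ?_) h1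
        rw [h2]; ring
      exact le_of_mul_le_mul_left h4 (by positivity)
    have h5 : (cS k X d n : ℝ) ≤ (Rp k d n).card := by
      have : cS k X d n ≤ (Rp k d n).card := by
        unfold cS
        refine Finset.card_le_card fun y hy => ?_
        rw [Finset.mem_filter] at hy
        exact (mem_Rp k d n (by omega) y).2 hy.2
      exact_mod_cast this
    refine le_trans ?_ (h3.trans h5)
    refine (mul_le_mul_of_nonneg_right (min_le_left _ _) hrk0).trans ?_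
    refine mul_le_mul_of_nonneg_left (pow_le_pow_left₀ hr.le ?_ _) hc.le
    refine le_of_pow_le_pow_left₀ (n := k) (by omega) hX0.le ?_
    rw [hrn]
    have : n ≤ X ^ k := hw2.le.trans (Nat.pow_le_pow_left (by omega) _)
    exact_mod_cast this

end Pool.Agent.helper132_n
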