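import Pool.Agent.helper132_n.A7
import Pool.Agent.helper132_dc.D10
import Pool.Agent.helper132_h.H28

/-! The endpoint bound from the main proposition and the lower bound for spheres. -/

namespace Pool.Agent.helper132_n

open Finset Pool.Agent.helper132_sph Pool.Agent.helper132_poly Pool.Agent.helper132_quad Pool.Agent.helper132_h
open scoped ENNReal NNReal

/-- the conclusion of the main proposition. -/
def MainP (k d : ℕ) : Prop := ∃ K : ℝ, 1 ≤ K ∧ ∀ (E F : Finset (Fin d → ℤ)) (ρ : ℝ)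
      (_ : 0 < ρ) (_ : Dens E F ρ) (J : (Fin d → ℤ) → ℕ) (n : (Fin d → ℤ) → ℤ),
      ∑ x ∈ F, ((((2 ^ J x) ^ k : ℕ) : ℝ) * cnt k (2 ^ J x) E x (n x)) /
        (((2 ^ J x : ℕ) : ℝ)) ^ d ≤
        K * (√((F.card : ℝ) * E.card * ρ ^ (1 - ((2 * k : ℕ) : ℝ) / d)) + E.card)

/-- the lower bound for the number of points of spheres. -/
def SphL (k d : ℕ) : Prop := ∃ c : ℝ, 0 < c ∧
    ∀ (n : ℕ) (r : ℝ), 0 < r → r ^ k = n →
      c * r ^ (d - k) ≤ max 1 (((Rp k d n).card : ℕ) : ℝ)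

/-- The restricted estimate. -/
theorem restricted6 (κ : ℕ) (hκ : 2 ≤ κ) (d : ℕ) (hdk : 2 * (κ + 1) + 1 ≤ d)
    (hM : MainP (κ + 1) d) (hSL : SphL (κ + 1) d) :
    ∃ K : ℝ, 0 ≤ K ∧ ∀ (n : (Fin d → ℤ) → ℕ)
      (_ : ∀ x, 1 ≤ n x ∧ (SpF (κ + 1) d (n x)).Nonempty) (E F : Finset (Fin d → ℤ)),
      ∑ x ∈ F, (((SpF (κ + 1) d (n x)).filter (fun y => x - y ∈ E)).card : ℝ) /
        (SpF (κ + 1) d (n x)).card ≤
        K * ((F.card : ℝ) ^ (((κ + 1 : ℕ) : ℝ) / d) * (E.card : ℝ) ^ (1 - ((κ + 1 : ℕ) : ℝ) / d)) := by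
  classical
  obtain ⟨K, hK1, hK⟩ := hM
  obtain ⟨c, hc0, hc⟩ := hSL
  have hdR : (0 : ℝ) < d := by exact_mod_cast (by omega : 0 < d)
  have hK0 : 0 ≤ K := by linarith
  obtain ⟨θ, hθ⟩ : ∃ θ : ℝ, θ = ((κ + 1 : ℕ) : ℝ) / d := ⟨_, rfl⟩
  have hθ0 : 0 < θ := by rw [hθ]; positivity
  have hθ1 : θ < 1 / 2 := by
    rw [hθ, div_lt_iff₀ hdR]
    have : ((2 * (κ + 1) + 1 : ℕ) : ℝ) ≤ d := by exact_mod_cast hdk
    push_cast at this ⊢
    linarith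
  have h2θ : 1 - ((2 * (κ + 1) : ℕ) : ℝ) / d = 1 - 2 * θ := by
    rw [hθ]; push_cast; ring
  obtain ⟨Kb, hKb⟩ : ∃ Kb : ℝ, Kb = 2 ^ (d - (κ + 1)) / c * (2 ^ d * K) := ⟨_, rfl⟩
  have hKb0 : 0 ≤ Kb := by rw [hKb]; positivity
  obtain ⟨K', hK'0, hK'⟩ := induct_bound (d := d) θ hθ0 hθ1 1 Kb zero_le_one hKb0
  refine ⟨K', hK'0, ?_⟩
  intro n hn E F
  rw [← hθ]
  refine hK' E (fun x => (((SpF (κ + 1) d (n x)).filter (fun y => x - y ∈ E)).card : ℝ) /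
        (SpF (κ + 1) d (n x)).card) ?_ ?_ ?_ F
  · intro x; positivity
  · intro x
    have h1 : (0 : ℝ) < (SpF (κ + 1) d (n x)).card := by
      exact_mod_cast Finset.card_pos.2 (hn x).2
    rw [div_le_one h1]
    exact_mod_cast Finset.card_filter_le _ _
  clear F
  intro F ρ hρ hDens
  -- scales
  have hJex : ∀ x, ∃ j : ℕ, n x < (2 ^ j) ^ (κ + 1) ∧
      (((2 ^ j : ℕ) : ℝ)) ^ (d - (κ + 1)) * c ≤ 2 ^ (d - (κ + 1)) * (SpF (κ + 1) d (n x)).card := by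
    intro x
    obtain ⟨w, hw1, hw2⟩ := exists_root (κ + 1) (n x) (by omega)
    have hw0 : w ≠ 0 := by
      intro h0
      rw [h0] at hw2
      simp only [zero_add, one_pow] at hw2
      have := (hn x).1
      omega
    refine ⟨Nat.log 2 w + 1, ?_, ?_⟩
    · have h1 : w + 1 ≤ 2 ^ (Nat.log 2 w + 1) := Nat.lt_pow_succ_log_self (by norm_num) _
      exact lt_of_lt_of_le hw2 (Nat.pow_le_pow_left h1 _)
    · obtain ⟨r, hr⟩ : ∃ r : ℝ, r = ((n x : ℕ) : ℝ) ^ ((((κ + 1 : ℕ)) : ℝ)⁻¹) := ⟨_, rfl⟩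
      have hnx : (0 : ℝ) < n x := by exact_mod_cast (hn x).1
      have hr0 : 0 < r := by rw [hr]; positivity
      have hrk : r ^ (κ + 1) = n x := by
        rw [hr]; exact Real.rpow_inv_natCast_pow hnx.le (by omega)
      have h2 := hc (n x) r hr0 hrk
      have h3 : max 1 (((Rp (κ + 1) d (n x)).card : ℕ) : ℝ) ≤ (SpF (κ + 1) d (n x)).card := by
        refine max_le ?_ ?_
        · exact_mod_cast Finset.card_pos.2 (hn x).2
        · exact_mod_cast Rp_le_SpF (κ + 1) d (n x) (by omega)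
      have h4 : (2 : ℝ) ^ (Nat.log 2 w) ≤ r := by
        refine le_of_pow_le_pow_left₀ (n := κ + 1) (by omega) hr0.le ?_
        rw [hrk]
        have : (2 ^ Nat.log 2 w) ^ (κ + 1) ≤ n x :=
          (Nat.pow_le_pow_left (Nat.pow_log_le_self 2 hw0) _).trans hw1
        exact_mod_cast this
      calc (((2 ^ (Nat.log 2 w + 1) : ℕ) : ℝ)) ^ (d - (κ + 1)) * c
          = 2 ^ (d - (κ + 1)) * (c * ((2 : ℝ) ^ (Nat.log 2 w)) ^ (d - (κ + 1))) := by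
            push_cast
            rw [pow_succ, mul_pow]; ring
        _ ≤ 2 ^ (d - (κ + 1)) * (c * r ^ (d - (κ + 1))) := by gcongr
        _ ≤ 2 ^ (d - (κ + 1)) * (SpF (κ + 1) d (n x)).card := by
            refine mul_le_mul_of_nonneg_left (h2.trans h3) (by positivity)
  choose J hJ1 hJ2 using hJex
  -- pointwise
  have hpt : ∀ x ∈ F, (((SpF (κ + 1) d (n x)).filter (fun y => x - y ∈ E)).card : ℝ) /
        (SpF (κ + 1) d (n x)).card ≤ 2 ^ (d - (κ + 1)) / c *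
        ∑ ε ∈ sgns d, ((((2 ^ J x) ^ (κ + 1) : ℕ) : ℝ) *
          cnt (κ + 1) (2 ^ J x) (E.image (rf ε)) (rf ε x) (n x : ℤ)) / (((2 ^ J x : ℕ) : ℝ)) ^ d := by
    intro x _
    have hS : (0 : ℝ) < (SpF (κ + 1) d (n x)).card := by
      exact_mod_cast Finset.card_pos.2 (hn x).2
    have h1 := sphere_count_le (κ + 1) (n x) (2 ^ J x) (by omega) (hJ1 x) E x
    have h1R : (((SpF (κ + 1) d (n x)).filter (fun y => x - y ∈ E)).card : ℝ) ≤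
        ∑ ε ∈ sgns d, (cnt (κ + 1) (2 ^ J x) (E.image (rf ε)) (rf ε x) (n x : ℤ) : ℝ) := by
      exact_mod_cast h1
    obtain ⟨X, hX⟩ : ∃ X : ℝ, X = ((2 ^ J x : ℕ) : ℝ) := ⟨_, rfl⟩
    have hX0 : 0 < X := by rw [hX]; positivity
    have h2 := hJ2 x
    rw [← hX] at h2
    have hXk : ((((2 ^ J x) ^ (κ + 1) : ℕ) : ℝ)) = X ^ (κ + 1) := by rw [hX]; push_cast; ring
    rw [hXk, ← hX]
    have hXd : X ^ d = X ^ (κ + 1) * X ^ (d - (κ + 1)) := by rw [← pow_add]; congr 1; omega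
    rw [div_le_iff₀ hS]
    have h3 : ∑ ε ∈ sgns d, (X ^ (κ + 1) *
          cnt (κ + 1) (2 ^ J x) (E.image (rf ε)) (rf ε x) (n x : ℤ)) / X ^ d =
        (∑ ε ∈ sgns d, (cnt (κ + 1) (2 ^ J x) (E.image (rf ε)) (rf ε x) (n x : ℤ) : ℝ)) / X ^ (d - (κ + 1)) := by
      rw [Finset.sum_div]
      refine Finset.sum_congr rfl fun ε _ => ?_
      rw [hXd]
      field_simp
    rw [h3]
    obtain ⟨Sm, hSm⟩ : ∃ Sm : ℝ, Sm = ∑ ε ∈ sgns d, (cnt (κ + 1) (2 ^ J x) (E.image (rf ε)) (rf ε x) (n x : ℤ) : ℝ) :=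
      ⟨_, rfl⟩
    rw [← hSm] at h1R ⊢
    have hSm0 : 0 ≤ Sm := by rw [hSm]; positivity
    refine h1R.trans ?_
    have h4 : 2 ^ (d - (κ + 1)) / c * (Sm / X ^ (d - (κ + 1))) * (SpF (κ + 1) d (n x)).card =
        Sm * ((2 ^ (d - (κ + 1)) * (SpF (κ + 1) d (n x)).card) / (X ^ (d - (κ + 1)) * c)) := by
      field_simp
    rw [h4]
    refine le_mul_of_one_le_right hSm0 ?_
    rw [le_div_iff₀ (by positivity), one_mul]
    exact h2
  refine (Finset.sum_le_sum hpt).trans ?_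
  rw [← Finset.mul_sum, Finset.sum_comm]
  have hone : ∀ ε ∈ sgns d, ∑ x ∈ F, ((((2 ^ J x) ^ (κ + 1) : ℕ) : ℝ) *
          cnt (κ + 1) (2 ^ J x) (E.image (rf ε)) (rf ε x) (n x : ℤ)) / (((2 ^ J x : ℕ) : ℝ)) ^ d ≤
      K * (√((F.card : ℝ) * E.card * ρ ^ (1 - 2 * θ)) + E.card) := by
    intro ε hε
    have h1 := hK (E.image (rf ε)) (F.image (rf ε)) ρ hρ (Dens_rf hε E F ρ hDens)
      (fun x' => J (rf ε x')) (fun x' => (n (rf ε x') : ℤ))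
    rw [Finset.sum_image (fun a _ b _ h => rf_inj hε h), Finset.card_image_of_injective _ (rf_inj hε),
      Finset.card_image_of_injective _ (rf_inj hε), h2θ] at h1
    simp only [rf_rf hε] at h1
    exact h1
  have h5 := Finset.sum_le_sum hone
  rw [Finset.sum_const, card_sgns, nsmul_eq_mul] at h5
  push_cast at h5
  calc _ ≤ 2 ^ (d - (κ + 1)) / c * (2 ^ d * (K * (√((F.card : ℝ) * E.card * ρ ^ (1 - 2 * θ)) + E.card))) := by
        refine mul_le_mul_of_nonneg_left ?_ (by positivity)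
        refine le_trans (le_of_eq ?_) h5
        push_cast
        rfl
    _ = _ := by rw [hKb]; ring


/-- The endpoint bound. -/
theorem endpoint_abs (κ : ℕ) (hκ : 2 ≤ κ) (d : ℕ) (hdk : 2 * (κ + 1) + 1 ≤ d)
    (hM : MainP (κ + 1) d) (hSL : SphL (κ + 1) d) :
    ∃ C : ℝ≥0, ∀ f : (Fin d → ℤ) → ℂ,
      weakNorm ((d : ℝ) / (d - ((κ + 1 : ℕ) : ℝ))) (sphMax (κ + 1) f) ≤
        C * lorentzNorm ((d : ℝ) / (d - ((κ + 1 : ℕ) : ℝ))) (fun x => ENNReal.ofReal ‖f x‖) := by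
  obtain ⟨K, hK0, hK⟩ := restricted6 κ hκ d hdk hM hSL
  refine ⟨Real.toNNReal K, ?_⟩
  intro f
  have hd0 : (0 : ℝ) < d := by exact_mod_cast (by omega : 0 < d)
  have hdkR : 2 * (((κ + 1 : ℕ)) : ℝ) < d := by exact_mod_cast (by omega : 2 * (κ + 1) < d)
  have hkpos : (0 : ℝ) < ((κ + 1 : ℕ) : ℝ) := by exact_mod_cast Nat.succ_pos κ
  have hp1 : 1 ≤ (d : ℝ) / (d - ((κ + 1 : ℕ) : ℝ)) := by
    rw [le_div_iff₀ (by linarith)]; linarith
  have hp : 1 / ((d : ℝ) / (d - ((κ + 1 : ℕ) : ℝ))) = 1 - ((κ + 1 : ℕ) : ℝ) / d := by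
    rw [one_div_div, sub_div, div_self hd0.ne']
  have hθ0 : 0 < ((κ + 1 : ℕ) : ℝ) / d := by positivity
  have hθ1 : ((κ + 1 : ℕ) : ℝ) / d < 1 := by
    rw [div_lt_one hd0]; linarith
  unfold weakNorm lorentzNorm
  rw [hp]
  refine iSup_le fun t => iSup_le fun ht => ?_
  refine le_trans (level_bound _ t (1 - ((κ + 1 : ℕ) : ℝ) / d) ht (by linarith)
    (ENNReal.ofReal K * ∫⁻ s in Set.Ioi (0 : ℝ), distr (fun x => ENNReal.ofReal ‖f x‖) s ^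
      (1 - ((κ + 1 : ℕ) : ℝ) / d)) ?_) ?_
  · intro F hF
    exact finite_bound (κ + 1) (by omega) (by omega) K _ hK0 hθ0 hθ1 hK f t F (fun x hx => hF hx)
  · change ENNReal.ofReal K * _ ≤ ENNReal.ofReal K * _
    refine mul_le_mul_right ?_ _
    refine le_mul_of_one_le_left bot_le ?_
    rw [← ENNReal.ofReal_one]
    exact ENNReal.ofReal_le_ofReal hp1



/-- the lower bound for spheres. -/
theorem sphL_all (k : ℕ) (hk : 3 ≤ k) (d : ℕ) (hd : k ^ 2 + k + 1 ≤ d) : SphL k d := by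
  obtain ⟨A, CW, hA, _, _, hCW, hW⟩ := exists_WH' k (by omega)
  obtain ⟨CJ, hCJ, hJ⟩ := Pool.Agent.helper132_dc.vmvt k (by omega) (1 / (4 * (A : ℝ))) (by positivity)
  have h2 := Pool.Agent.helper132_dc.two_sk k
  have h2R : 2 * ((Pool.Agent.helper132_dc.sk k : ℕ) : ℝ) = k * (k + 1) := by exact_mod_cast h2
  have hkR : (3 : ℝ) ≤ k := by exact_mod_cast hk
  refine sphere_lower_x k A (Pool.Agent.helper132_dc.sk k) hk CW hCW hW hA
    (Pool.Agent.helper132_dc.sk_pos k (by omega)) (1 / (4 * (A : ℝ))) CJ le_rfl hCJ hJ ?_ d ?_ hd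
  · rw [h2R]
    nlinarith
  · rw [h2]
    have : k * (k + 1) = k ^ 2 + k := by ring
    omega

/-- The endpoint bound in all dimensions `d ≥ 2 k² + 1`. -/
theorem endpoint_2k2 (k : ℕ) (hk : 3 ≤ k) (d : ℕ) (hd : 2 * k ^ 2 + 1 ≤ d) :
    ∃ C : ℝ≥0, ∀ f : (Fin d → ℤ) → ℂ,
      weakNorm ((d : ℝ) / (d - k)) (sphMax k f) ≤
        C * lorentzNorm ((d : ℝ) / (d - k)) (fun x => ENNReal.ofReal ‖f x‖) := by
  obtain ⟨κ, rfl⟩ : ∃ κ, k = κ + 1 := ⟨k - 1, by omega⟩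
  have hκ : 2 ≤ κ := by omega
  have e1 : 2 * (κ + 1) ^ 2 = 2 * (κ + 1) * (κ + 1) := by ring
  have e2 : (κ + 1) ^ 2 = (κ + 1) * (κ + 1) := by ring
  have e3 : 3 * (κ + 1) ≤ (κ + 1) * (κ + 1) := Nat.mul_le_mul_right _ (by omega)
  refine endpoint_abs κ hκ d (by omega) ?_ (sphL_all (κ + 1) hk d ?_)
  · have hκR : (2 : ℝ) ≤ κ := by exact_mod_cast hκ
    obtain ⟨e, he⟩ : ∃ e : ℝ, e = 1 / (6 * ((κ + 1 : ℕ) : ℝ)) := ⟨_, rfl⟩
    have hk0 : (0 : ℝ) < ((κ + 1 : ℕ) : ℝ) := by exact_mod_cast Nat.succ_pos κ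
    have he0 : 0 < e := by rw [he]; positivity
    have hek : e * ((κ + 1 : ℕ) : ℝ) = 1 / 6 := by rw [he]; field_simp
    have he1 : e ≤ 1 / 6 := by
      have : (1 : ℝ) ≤ ((κ + 1 : ℕ) : ℝ) := by exact_mod_cast (by omega : 1 ≤ κ + 1)
      nlinarith
    have hms : (κ + 1) * κ = 2 * Pool.Agent.helper132_dc.sk κ := by
      rw [Pool.Agent.helper132_dc.two_sk]; ring
    have hs := Pool.Agent.helper132_dc.sk_pos κ (by omega)
    obtain ⟨CJ1, hCJ1, hJ1⟩ := Pool.Agent.helper132_dc.vmvt κ (by omega) (1 / 18) (by norm_num)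
    obtain ⟨CJ2, hCJ2, hJ2⟩ := Pool.Agent.helper132_dc.vmvt κ (by omega) (1 / (48 * (κ : ℝ))) (by positivity)
    obtain ⟨C0, hC0, hst⟩ := Hs_new κ _ (κ + 1) hκ hs hms le_rfl CJ1 hCJ1 hJ1
    obtain ⟨Cs, hCs, hmin⟩ := minor_new κ _ (κ + 1) hκ hs hms le_rfl CJ2 hCJ2 hJ2 e he
    have hdR : 2 * (((κ + 1 : ℕ) : ℝ) * ((κ + 1 : ℕ) : ℝ)) + 1 ≤ d := by
      have : 2 * ((κ + 1) * (κ + 1)) + 1 ≤ d := by rw [← e2]; exact hd
      exact_mod_cast this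
    have hk3 : (3 : ℝ) ≤ ((κ + 1 : ℕ) : ℝ) := by push_cast; linarith
    refine main_prop5 κ (κ + 1) hκ (by omega) C0 hC0 hst Cs hCs e he0 hmin d (by rw [← e1]; exact hd) ?_ ?_ (by omega)
    · nlinarith
    · have e4 : ((κ + 1 : ℕ) : ℝ) * (2 * ((κ + 1 : ℕ) : ℝ) + 2 * e) =
        2 * (((κ + 1 : ℕ) : ℝ) * ((κ + 1 : ℕ) : ℝ)) + 2 * (e * ((κ + 1 : ℕ) : ℝ)) := by ring
      rw [e4, hek]
      linarith
  · have : (κ + 1) ^ 2 + (κ + 1) + 1 ≤ 2 * (κ + 1) ^ 2 + 1 := by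
      rw [e2]; omega
    omega

end Pool.Agent.helper132_n
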